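import Mathlib
import Pool.Agent.Helper12_CMP.Transfer

set_option autoImplicit false

/-!
# Substituting the generator into polynomials with integer coefficients
-/

namespace Pool.Agent.Helper26_RS

open MvPolynomial Pool.Agent Pool.Agent.UO

/-- The generator as a substitution. -/
noncomputable def genE (n t : ℕ) : MvPolynomial (Fin n) ℤ →ₐ[ℤ] MvPolynomial (Fin t ⊕ Fin t) ℤ :=
  aeval fun s : Fin n => point n (fun j => X (Sum.inl j)) (fun j => X (Sum.inr j)) (s : ℕ)

lemma eval_genE {n t : ℕ} {R : Type} [CommRing R] (u : Fin t ⊕ Fin t → R)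
    (Q : MvPolynomial (Fin n) ℤ) :
    eval₂ (Int.castRingHom R) u (genE n t Q) =
      eval₂ (Int.castRingHom R) (fun s : Fin n => point n (fun j => u (Sum.inl j))
        (fun j => u (Sum.inr j)) (s : ℕ)) Q := by
  have h : (eval₂Hom (Int.castRingHom R) u).comp (genE n t).toRingHom =
      eval₂Hom (Int.castRingHom R) (fun s : Fin n => point n (fun j => u (Sum.inl j))
        (fun j => u (Sum.inr j)) (s : ℕ)) := by
    apply MvPolynomial.ringHom_ext
    · intro a
      simp [genE]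
    · intro i
      simp only [genE, AlgHom.toRingHom_eq_coe, RingHom.coe_comp, RingHom.coe_coe,
        Function.comp_apply, aeval_X, eval₂Hom_X']
      rw [point_map (eval₂Hom (Int.castRingHom R) u)]
      simp only [eval₂Hom_X']
  exact RingHom.congr_fun h Q

/-- The polynomial does not vanish on the generator with seed length `t`. -/
def Hit {n : ℕ} (t : ℕ) (Q : MvPolynomial (Fin n) ℤ) : Prop := genE n t Q ≠ 0

lemma Hit.mul {n t : ℕ} {P Q : MvPolynomial (Fin n) ℤ} (hP : Hit t P) (hQ : Hit t Q) :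
    Hit t (P * Q) := by
  unfold Hit at *
  rw [map_mul]
  exact mul_ne_zero hP hQ

lemma Hit.prod {n t : ℕ} {ι : Type} (s : Finset ι) {P : ι → MvPolynomial (Fin n) ℤ}
    (h : ∀ i ∈ s, Hit t (P i)) : Hit t (∏ i ∈ s, P i) := by
  unfold Hit at *
  rw [map_prod]
  exact Finset.prod_ne_zero_iff.2 h

lemma hit_of_rat {n t : ℕ} {Q : MvPolynomial (Fin n) ℤ}
    (h : ∃ w z : Fin t → ℚ, eval (point n w z)
      (rename Fin.val (map (Int.castRingHom ℚ) Q) : MvPolynomial ℕ ℚ) ≠ 0) : Hit t Q := by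
  obtain ⟨w, z, h⟩ := h
  intro h0
  apply h
  have h1 := eval_genE (Sum.elim w z) Q
  rw [h0] at h1
  simp only [Sum.elim_inl, Sum.elim_inr, eval₂_zero] at h1
  rw [eval_rename, eval_map]
  exact h1.symm

lemma hit_low {n t : ℕ} {Q : MvPolynomial (Fin n) ℤ} (hQ : Q ≠ 0) (hd : Q.totalDegree ≤ t) :
    Hit t Q := by
  classical
  -- a monomial of `Q` and its support
  obtain ⟨m, hm⟩ := MvPolynomial.ne_zero_iff.1 hQ
  have hmS : m.support.card ≤ t := by
    refine le_trans ?_ hd
    refine le_trans ?_ (MvPolynomial.le_totalDegree (MvPolynomial.mem_support_iff.2 hm))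
    rw [Finsupp.sum]
    calc m.support.card = ∑ _i ∈ m.support, 1 := by simp
      _ ≤ ∑ i ∈ m.support, m i := Finset.sum_le_sum fun i hi =>
          Nat.one_le_iff_ne_zero.2 (Finsupp.mem_support_iff.1 hi)
  -- kill the other variables
  obtain ⟨P, hP⟩ : ∃ P : MvPolynomial (Fin n) ℚ, P = aeval (fun i : Fin n =>
      if i ∈ m.support then (X i : MvPolynomial (Fin n) ℚ) else 0)
      (map (Int.castRingHom ℚ) Q) := ⟨_, rfl⟩
  have hcoeff : coeff m P = ((coeff m Q : ℤ) : ℚ) := by
    rw [hP, CMP.coeff_kill m.support m (Finset.Subset.refl _), coeff_map, eq_intCast]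
  have hP0 : P ≠ 0 := by
    intro h0
    rw [h0, coeff_zero] at hcoeff
    exact hm (by exact_mod_cast hcoeff.symm)
  obtain ⟨x, hx⟩ : ∃ x : Fin n → ℚ, eval x P ≠ 0 := by
    by_contra hcon
    push Not at hcon
    exact hP0 (MvPolynomial.funext fun x => by rw [hcon x, map_zero])
  obtain ⟨y, hy⟩ : ∃ y : Fin n → ℚ, y = fun i => if i ∈ m.support then x i else 0 := ⟨_, rfl⟩
  have hxy : eval x P = eval y (map (Int.castRingHom ℚ) Q) := by
    rw [hP]
    have h2 : (eval x).comp (aeval (fun i : Fin n =>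
        if i ∈ m.support then (X i : MvPolynomial (Fin n) ℚ) else 0)).toRingHom =
        (eval y : MvPolynomial (Fin n) ℚ →+* ℚ) := by
      apply MvPolynomial.ringHom_ext
      · intro a
        simp
      · intro i
        simp only [AlgHom.toRingHom_eq_coe, RingHom.coe_comp, RingHom.coe_coe,
          Function.comp_apply, aeval_X, eval_X, hy]
        split_ifs <;> simp
    exact RingHom.congr_fun h2 _
  have hIm : y ∈ Im (fun i : Fin n => ((i : ℕ) : ℚ)) t := by
    refine Im_mono _ hmS (Im_support (fun i j hij => Fin.ext (Nat.cast_injective hij)) m.support y ?_)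
    intro i hi
    rw [hy]
    exact if_neg hi
  obtain ⟨w, z, hwz⟩ := hIm
  apply hit_of_rat
  refine ⟨w, z, ?_⟩
  rw [eval_rename, point_eq_ext]
  have e : (extZ (SV (fun i : Fin n => ((i : ℕ) : ℚ)) w z)) ∘ (Fin.val : Fin n → ℕ) = y := by
    funext i
    change extZ _ (i : ℕ) = _
    unfold extZ
    rw [dif_pos i.2, hwz]
  rw [e, ← hxy]
  exact hx

lemma Hit.mono {n s t : ℕ} (hst : s ≤ t) {Q : MvPolynomial (Fin n) ℤ} (h : Hit s Q) : Hit t Q := by
  -- evaluate the extra seeds at zero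
  intro h0
  apply h
  obtain ⟨u, hu⟩ : ∃ u : Fin t ⊕ Fin t → MvPolynomial (Fin s ⊕ Fin s) ℤ, u = Sum.elim
      (fun j : Fin t => if hj : (j : ℕ) < s then
        (X (Sum.inl ⟨(j : ℕ), hj⟩) : MvPolynomial (Fin s ⊕ Fin s) ℤ) else 0)
      (fun j : Fin t => if hj : (j : ℕ) < s then
        (X (Sum.inr ⟨(j : ℕ), hj⟩) : MvPolynomial (Fin s ⊕ Fin s) ℤ) else 0) := ⟨_, rfl⟩
  have h1 := eval_genE u Q
  rw [h0, eval₂_zero] at h1
  have h2 : genE n s Q = eval₂ (Int.castRingHom _) (fun i : Fin n =>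
      point n (fun j => X (Sum.inl j)) (fun j => (X (Sum.inr j) : MvPolynomial (Fin s ⊕ Fin s) ℤ))
        (i : ℕ)) Q := by
    unfold genE
    rw [aeval_def]
    congr 1
  rw [h2, h1]
  congr 1
  funext i
  unfold point
  rw [if_pos i.2, if_pos i.2]
  obtain ⟨r, rfl⟩ := Nat.exists_eq_add_of_le hst
  rw [Fin.sum_univ_add, Finset.sum_eq_zero (s := (Finset.univ : Finset (Fin r))), add_zero]
  · apply Finset.sum_congr rfl
    intro j _
    simp [hu]
  · intro j _
    simp [hu]

/-- Small integer points on the generator. -/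
lemma Hit.exists_point {n t : ℕ} {Q : MvPolynomial (Fin n) ℤ} (h : Hit t Q) (D : ℕ)
    (hD : Q.totalDegree ≤ D) :
    ∃ w z : Fin t → ℕ, (∀ j, w j ≤ n * D) ∧ (∀ j, z j ≤ n * D) ∧
      eval (fun s : Fin n => point n (fun j => (w j : ℤ)) (fun j => (z j : ℤ)) (s : ℕ)) Q ≠ 0 := by
  have h1 : ∃ w z : Fin t → FractionRing (MvPolynomial (Fin t ⊕ Fin t) ℤ), eval (point n w z)
      (map (Int.castRingHom (FractionRing (MvPolynomial (Fin t ⊕ Fin t) ℤ)))
        (rename Fin.val Q : MvPolynomial ℕ ℤ)) ≠ 0 := by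
    refine ⟨fun j => algebraMap _ _ (X (Sum.inl j) : MvPolynomial (Fin t ⊕ Fin t) ℤ),
      fun j => algebraMap _ _ (X (Sum.inr j) : MvPolynomial (Fin t ⊕ Fin t) ℤ), ?_⟩
    have h2 := eval_genE (fun i => algebraMap (MvPolynomial (Fin t ⊕ Fin t) ℤ)
      (FractionRing (MvPolynomial (Fin t ⊕ Fin t) ℤ)) (X i)) Q
    have h3 : eval₂ (Int.castRingHom (FractionRing (MvPolynomial (Fin t ⊕ Fin t) ℤ)))
        (fun i => algebraMap (MvPolynomial (Fin t ⊕ Fin t) ℤ)
        (FractionRing (MvPolynomial (Fin t ⊕ Fin t) ℤ)) (X i)) (genE n t Q) =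
        algebraMap _ _ (genE n t Q) := by
      have h4 : eval₂Hom (Int.castRingHom (FractionRing (MvPolynomial (Fin t ⊕ Fin t) ℤ)))
          (fun i => algebraMap (MvPolynomial (Fin t ⊕ Fin t) ℤ)
          (FractionRing (MvPolynomial (Fin t ⊕ Fin t) ℤ)) (X i)) =
          algebraMap (MvPolynomial (Fin t ⊕ Fin t) ℤ)
          (FractionRing (MvPolynomial (Fin t ⊕ Fin t) ℤ)) := by
        apply MvPolynomial.ringHom_ext
        · intro a
          simp
        · intro i
          simp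
      exact RingHom.congr_fun h4 _
    rw [h3] at h2
    rw [eval_map, eval₂_rename]
    intro h5
    apply h
    apply IsFractionRing.injective (MvPolynomial (Fin t ⊕ Fin t) ℤ)
      (FractionRing (MvPolynomial (Fin t ⊕ Fin t) ℤ))
    rw [map_zero, h2]
    exact h5
  obtain ⟨w, z, hw, hz, hne⟩ := CMP.int_hit_of n D t (rename Fin.val Q)
    ((totalDegree_rename_le _ _).trans hD) _ h1 dvd_rfl
  refine ⟨w, z, hw, hz, ?_⟩
  rw [eval_rename] at hne
  exact hne

end Pool.Agent.Helper26_RS
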