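import Mathlib
import Pool.Agent.Helper12_FV.Point
import Pool.Agent.Helper26_RS.Gen

set_option autoImplicit false

/-!
# Lines on the generator on which everything stays in general position
-/

namespace Pool.Agent.Helper26_RS

open Polynomial Pool.Agent Pool.Agent.UO Pool.Agent.Helper12_FV

/-- The integer point of the generator. -/
def ipt (n : ℕ) {t : ℕ} (w z : Fin t → ℕ) (s : Fin n) : ℤ :=
  point n (fun j => (w j : ℤ)) (fun j => (z j : ℤ)) (s : ℕ)

theorem exists_line_gen {n : ℕ} (m D T DH t1 t2 : ℕ) (f : Fin m → MvPolynomial (Fin n) ℤ)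
    (hdeg1 : ∀ j, 1 ≤ (f j).totalDegree) (hdegD : ∀ j, (f j).totalDegree ≤ D)
    (hT : ∑ j, (f j).totalDegree ≤ T) (hcop : ∀ j j', j ≠ j' → IsRelPrime (f j) (f j'))
    (H : MvPolynomial (Fin n) ℤ) (hH : Hit t2 H) (hDH : H.totalDegree ≤ DH)
    (ht1 : D ≤ t1) (ht2 : D ≤ t2) (ht2' : 2 * D * D ≤ t2) :
    ∃ (w1 z1 : Fin t1 → ℕ) (w2 z2 : Fin t2 → ℕ),
      (∀ j, w1 j ≤ n * (T + T * T * (2 * D * D) + DH)) ∧
      (∀ j, z1 j ≤ n * (T + T * T * (2 * D * D) + DH)) ∧
      (∀ j, w2 j ≤ n * (T + T * T * (2 * D * D) + DH)) ∧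
      (∀ j, z2 j ≤ n * (T + T * T * (2 * D * D) + DH)) ∧
      (∀ j, MvPolynomial.eval (ipt n w2 z2) (f j) ≠ 0) ∧
      (∀ j, MvPolynomial.eval (ipt n w1 z1) (topp (f j)) ≠ 0) ∧
      MvPolynomial.eval (ipt n w2 z2) H ≠ 0 ∧ ∀ j j', j ≠ j' →
        resultant (onl (ipt n w2 z2) (ipt n w1 z1) (f j)) (onl (ipt n w2 z2) (ipt n w1 z1) (f j'))
          (f j).totalDegree (f j').totalDegree ≠ 0 := by
  classical
  have hf0 : ∀ j, f j ≠ 0 := by
    intro j h0
    have := hdeg1 j
    rw [h0] at this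
    simp at this
  have hmT : m ≤ T := by
    refine le_trans ?_ hT
    calc m = ∑ j : Fin m, 1 := by simp
      _ ≤ ∑ j, (f j).totalDegree := Finset.sum_le_sum fun j _ => hdeg1 j
  obtain ⟨w1, z1, hw1, hz1, hβ⟩ := (Hit.prod (t := t1) Finset.univ (P := fun j => topp (f j))
    fun j _ => hit_low (topp_ne_zero (hf0 j))
      ((totalDegree_topp_le (f j)).trans ((hdegD j).trans ht1))).exists_point
    (T + T * T * (2 * D * D) + DH) (by
      have h1 : (∏ j, topp (f j)).totalDegree ≤ T := by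
        refine (MvPolynomial.totalDegree_finsetProd _ _).trans ?_
        exact (Finset.sum_le_sum fun j _ => totalDegree_topp_le (f j)).trans hT
      omega)
  obtain ⟨β, hβdef⟩ : ∃ β : Fin n → ℤ, β = ipt n w1 z1 := ⟨_, rfl⟩
  have hβ' : ∀ j, MvPolynomial.eval β (topp (f j)) ≠ 0 := by
    rw [map_prod] at hβ
    intro j
    rw [hβdef]
    exact Finset.prod_ne_zero_iff.1 hβ j (Finset.mem_univ j)
  obtain ⟨w2, z2, hw2, hz2, hα⟩ := ((((Hit.prod (t := t2) Finset.univ (P := fun j => f j)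
    fun j _ => hit_low (hf0 j) ((hdegD j).trans ht2)).mul
    (Hit.prod (t := t2) (Finset.univ : Finset (Fin m)).offDiag
      (P := fun jj => rho β (f jj.1) (f jj.2)) fun jj hjj => hit_low
        (rho_ne_zero β _ _ (hdeg1 _) (hβ' _) (hβ' _) (hcop _ _ (Finset.mem_offDiag.1 hjj).2.2))
        ((totalDegree_rho_le β _ _ D (hdegD jj.1) (hdegD jj.2)).trans ht2')))).mul hH).exists_point
    (T + T * T * (2 * D * D) + DH) (by
      have h1 : (∏ j, f j).totalDegree ≤ T :=
        (MvPolynomial.totalDegree_finsetProd _ _).trans hT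
      have h2 : (∏ jj ∈ (Finset.univ : Finset (Fin m)).offDiag,
          rho β (f jj.1) (f jj.2)).totalDegree ≤ T * T * (2 * D * D) := by
        refine (MvPolynomial.totalDegree_finsetProd _ _).trans ?_
        refine (Finset.sum_le_sum fun jj _ =>
          totalDegree_rho_le β _ _ D (hdegD jj.1) (hdegD jj.2)).trans ?_
        rw [Finset.sum_const, smul_eq_mul]
        apply Nat.mul_le_mul_right
        rw [Finset.offDiag_card, Finset.card_univ, Fintype.card_fin]
        exact (Nat.sub_le _ _).trans (Nat.mul_le_mul hmT hmT)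
      have h3 := MvPolynomial.totalDegree_mul ((∏ j, f j) *
        (∏ jj ∈ (Finset.univ : Finset (Fin m)).offDiag, rho β (f jj.1) (f jj.2))) H
      have h4 := MvPolynomial.totalDegree_mul (∏ j, f j)
        (∏ jj ∈ (Finset.univ : Finset (Fin m)).offDiag, rho β (f jj.1) (f jj.2))
      omega)
  rw [map_mul, map_mul, map_prod, map_prod] at hα
  refine ⟨w1, z1, w2, z2, hw1, hz1, hw2, hz2, ?_, ?_, right_ne_zero_of_mul hα, ?_⟩
  · intro j
    exact Finset.prod_ne_zero_iff.1 (left_ne_zero_of_mul (left_ne_zero_of_mul hα)) j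
      (Finset.mem_univ j)
  · intro j
    rw [← hβdef]
    exact hβ' j
  · intro j j' hjj
    have h1 := Finset.prod_ne_zero_iff.1 (right_ne_zero_of_mul (left_ne_zero_of_mul hα)) (j, j')
      (Finset.mem_offDiag.2 ⟨Finset.mem_univ _, Finset.mem_univ _, hjj⟩)
    rw [eval_rho] at h1
    rw [← hβdef]
    exact h1

lemma natAbs_ipt_le (n D t : ℕ) (w z : Fin t → ℕ) (hw : ∀ j, w j ≤ n * D)
    (hz : ∀ j, z j ≤ n * D) (s : Fin n) :
    (ipt n w z s).natAbs ≤ 2 ^ (t + n * (n * (D + 1))) :=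
  natAbs_point_le n D t w z hw hz _

end Pool.Agent.Helper26_RS
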