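import Mathlib
import Pool.Agent.Helper12_FV.Main
import Pool.Agent.Helper26_RS.Line

set_option autoImplicit false
set_option linter.unusedSectionVars false

/-!
# Choice of the prime, for lines on the generator
-/

namespace Pool.Agent.Helper26_RS

open Polynomial Pool.Agent Pool.Agent.UO Pool.Agent.Helper12_FV Pool.Agent.Helper12_D3

theorem exists_hit_gen {n : ℕ} (m k D T b ε B t1 t2 DD : ℕ)
    (f : Fin m → MvPolynomial (Fin n) ℤ)
    (A : Fin k → MvPolynomial (Fin n) ℤ) (e : Fin k → Fin m → ℕ)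
    (hdeg1 : ∀ j, 1 ≤ (f j).totalDegree) (hdegD : ∀ j, (f j).totalDegree ≤ D)
    (hT : ∑ j, (f j).totalDegree ≤ T) (hAD : ∀ i, (A i).totalDegree ≤ D)
    (hcop : ∀ j j', j ≠ j' → IsRelPrime (f j) (f j')) (he : ∀ i j, e i j ≤ 2 ^ b)
    (hB1 : k * (D + k * T) = B) (ht1 : D ≤ t1) (ht2 : D ≤ t2) (ht2' : 2 * D * D ≤ t2)
    (hDD : T + T * T * (2 * D * D) + (D + k * B * T) = DD)
    (hfE : ∀ α β : Fin n → ℤ, (∀ s, (α s).natAbs ≤ 2 ^ (t1 + t2 + n * (n * (DD + 1)))) →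
      (∀ s, (β s).natAbs ≤ 2 ^ (t1 + t2 + n * (n * (DD + 1)))) →
      (∀ j, MvPolynomial.eval α (f j) ≠ 0) →
      ∀ j i, ((onl α β (f j)).coeff i).natAbs ≤ 2 ^ ε)
    (hAE : ∀ α : Fin n → ℤ, (∀ s, (α s).natAbs ≤ 2 ^ (t1 + t2 + n * (n * (DD + 1)))) →
      ∀ i, (MvPolynomial.eval α (A i)).natAbs ≤ 2 ^ ε)
    (hpit : ∀ (i0 : Fin k) (e0 : Fin m → ℕ) (r : Fin k → Fin m → ℕ),
      (∀ i ∈ cluster e B i0, ∀ j, e i j = e0 j + r i j) →
      ∑ i ∈ cluster e B i0, A i * ∏ j, f j ^ r i j ≠ 0 →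
      Hit t2 (∑ i ∈ cluster e B i0, A i * ∏ j, f j ^ r i j))
    (hne : ∑ i, A i * ∏ j, f j ^ e i j ≠ 0) :
    ∃ p, p.Prime ∧ p ≤ 64 * (LL k T D b ε B + 1) ^ 2 ∧
      ∃ (w1 z1 : Fin t1 → ℕ) (w2 z2 : Fin t2 → ℕ), ∀ N, B + k ≤ N →
      ¬ (X : (ZMod p)[X]) ^ N ∣ onl (fun s => (ipt n w2 z2 s : ZMod p))
        (fun s => (ipt n w1 z1 s : ZMod p)) (∑ i, A i * ∏ j, f j ^ e i j) := by
  classical
  have hmT : m ≤ T := by
    refine le_trans ?_ hT
    calc m = ∑ j : Fin m, 1 := by simp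
      _ ≤ ∑ j, (f j).totalDegree := Finset.sum_le_sum fun j _ => hdeg1 j
  unfold LL
  set G := closeGraph e B with hG
  -- a nonzero class sum
  obtain ⟨q, hq⟩ : ∃ q, ∑ i with G.connectedComponentMk i = q, A i * ∏ j, f j ^ e i j ≠ 0 := by
    by_contra hcon
    push Not at hcon
    apply hne
    rw [← Finset.sum_fiberwise_of_maps_to
      (t := (Finset.univ : Finset (Fin k)).image G.connectedComponentMk)
      (fun i _ => Finset.mem_image_of_mem _ (Finset.mem_univ i))]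
    exact Finset.sum_eq_zero fun q _ => hcon q
  set I := Finset.univ.filter fun i => G.connectedComponentMk i = q with hI
  obtain ⟨i0, hi0⟩ : I.Nonempty := by
    rw [Finset.nonempty_iff_ne_empty]
    intro h0
    rw [h0, Finset.sum_empty] at hq
    exact hq rfl
  have hi0' : G.connectedComponentMk i0 = q := (Finset.mem_filter.1 hi0).2
  have hreach : ∀ i, G.connectedComponentMk i = q → G.Reachable i0 i := by
    intro i hi
    rw [← hi0'] at hi
    exact (SimpleGraph.ConnectedComponent.eq.1 hi).symm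
  obtain ⟨e0, r, her⟩ := exists_common e B i0
  have hrD : ∀ i ∈ I, ∀ j, r i j ≤ k * B := fun i hi j =>
    (her i (hreach i (Finset.mem_filter.1 hi).2) j).2
  have hrS : ∀ i ∈ I, ∑ j, r i j ≤ k * B * T := by
    intro i hi
    refine (Finset.sum_le_sum fun j _ => hrD i hi j).trans ?_
    rw [Finset.sum_const, Finset.card_univ, Fintype.card_fin, smul_eq_mul, mul_comm]
    exact Nat.mul_le_mul_left _ hmT
  set H := ∑ i ∈ I, A i * ∏ j, f j ^ r i j with hH
  have hfac : ∑ i ∈ I, A i * ∏ j, f j ^ e i j = (∏ j, f j ^ e0 j) * H := by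
    rw [hH, Finset.mul_sum]
    apply Finset.sum_congr rfl
    intro i hi
    rw [mul_left_comm, ← Finset.prod_mul_distrib]
    congr 1
    apply Finset.prod_congr rfl
    intro j _
    rw [← pow_add, (her i (hreach i (Finset.mem_filter.1 hi).2) j).1]
  have hH0 : H ≠ 0 := by
    intro h0
    apply hq
    rw [hfac, h0, mul_zero]
  have hIeq : I = cluster e B i0 := by
    ext i
    simp only [cluster, hI, Finset.mem_filter, Finset.mem_univ, true_and]
    constructor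
    · exact hreach i
    · intro h
      rw [← hi0']
      exact (SimpleGraph.ConnectedComponent.eq.2 h).symm
  have hhit : Hit t2 H := by
    have h1 := hpit i0 e0 r (fun i hi j => (her i (hreach i (by
      rw [← hIeq] at hi
      exact (Finset.mem_filter.1 hi).2)) j).1)
    rw [← hIeq] at h1
    exact h1 hH0
  obtain ⟨w1, z1, w2, z2, hw1, hz1, hw2, hz2, hfα, hfβ, hHα, hres⟩ := exists_line_gen m D T
    (D + k * B * T) t1 t2 f hdeg1 hdegD hT hcop H hhit
    (totalDegree_class_le I A f r D (k * B) T hAD hT hrD) ht1 ht2 ht2'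
  rw [hDD] at hw1 hz1 hw2 hz2
  obtain ⟨α, hαdef⟩ : ∃ α, α = ipt n w2 z2 := ⟨_, rfl⟩
  obtain ⟨β, hβdef⟩ : ∃ β, β = ipt n w1 z1 := ⟨_, rfl⟩
  have hα : ∀ s, (α s).natAbs ≤ 2 ^ (t1 + t2 + n * (n * (DD + 1))) := by
    intro s
    rw [hαdef]
    exact (natAbs_ipt_le n DD t2 w2 z2 hw2 hz2 s).trans
      (Nat.pow_le_pow_right (by norm_num) (by omega))
  have hβ : ∀ s, (β s).natAbs ≤ 2 ^ (t1 + t2 + n * (n * (DD + 1))) := by
    intro s
    rw [hβdef]
    exact (natAbs_ipt_le n DD t1 w1 z1 hw1 hz1 s).trans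
      (Nat.pow_le_pow_right (by norm_num) (by omega))
  rw [← hαdef] at hfα hHα hres
  rw [← hβdef] at hfβ hres
  -- sizes
  have hfα2 : ∀ j, (MvPolynomial.eval α (f j)).natAbs ≤ 2 ^ ε := by
    intro j
    have h := hfE α β hα hβ hfα j 0
    rw [coeff_zero_eq_eval_zero, eval_zero_onl] at h
    exact h
  have hAα2 : ∀ i, (MvPolynomial.eval α (A i)).natAbs ≤ 2 ^ ε := hAE α hα
  have hfβ2 : ∀ j, (MvPolynomial.eval β (topp (f j))).natAbs ≤ 2 ^ ε := by
    intro j
    have h := hfE α β hα hβ hfα j (f j).totalDegree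
    rw [coeff_onl] at h
    exact h
  obtain ⟨ϱ, hϱ⟩ : ∃ ϱ : Fin m → Fin m → ℤ, ∀ j j', ϱ j j' =
      resultant (onl α β (f j)) (onl α β (f j')) (f j).totalDegree (f j').totalDegree :=
    ⟨fun j j' => resultant (onl α β (f j)) (onl α β (f j')) (f j).totalDegree
      (f j').totalDegree, fun _ _ => rfl⟩
  have hϱ0 : ∀ j j', j ≠ j' → ϱ j j' ≠ 0 := by
    intro j j' h
    rw [hϱ]
    exact hres j j' h
  have hϱb : ∀ j j', (ϱ j j').natAbs ≤ 2 ^ (2 * D * (2 * D) + ε * (2 * D)) := by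
    intro j j'
    rw [hϱ]
    refine (natAbs_resultant_le α β D (2 ^ ε) Nat.one_le_two_pow _ _ (hdegD _) (hdegD _)
      (hfE α β hα hβ hfα _) (hfE α β hα hβ hfα _)).trans ?_
    rw [← pow_mul, ← pow_add]
  -- the bad number
  set Z : Finset ((Fin k × Fin k × Fin m) × ℤ × ℤ) :=
    (Finset.univ ×ˢ (Finset.Icc (1 : ℤ) D ×ˢ Finset.Icc (-(B : ℤ)) B)).filter
      fun z => z.2.1 * ((e z.1.1 z.1.2.2 : ℤ) - e z.1.2.1 z.1.2.2) - z.2.2 ≠ 0 with hZ
  set F1 : ℕ := ∏ j, (MvPolynomial.eval α (f j)).natAbs with hF1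
  set F2 : ℕ := ∏ j, (MvPolynomial.eval β (topp (f j))).natAbs with hF2
  set F3 : ℕ := ∏ jj ∈ (Finset.univ : Finset (Fin m)).offDiag, (ϱ jj.1 jj.2).natAbs with hF3
  set F4 : ℕ := ∏ z ∈ Z, (z.2.1 * ((e z.1.1 z.1.2.2 : ℤ) - e z.1.2.1 z.1.2.2) - z.2.2).natAbs
    with hF4
  set F5 : ℕ := (MvPolynomial.eval α H).natAbs with hF5
  have hF1ne : F1 ≠ 0 := Finset.prod_ne_zero_iff.2 fun j _ => Int.natAbs_ne_zero.2 (hfα j)
  have hF2ne : F2 ≠ 0 := Finset.prod_ne_zero_iff.2 fun j _ => Int.natAbs_ne_zero.2 (hfβ j)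
  have hF3ne : F3 ≠ 0 := Finset.prod_ne_zero_iff.2 fun jj hjj =>
    Int.natAbs_ne_zero.2 (hϱ0 _ _ (Finset.mem_offDiag.1 hjj).2.2)
  have hF4ne : F4 ≠ 0 := Finset.prod_ne_zero_iff.2 fun z hz =>
    Int.natAbs_ne_zero.2 (Finset.mem_filter.1 hz).2
  have hF5ne : F5 ≠ 0 := Int.natAbs_ne_zero.2 hHα
  have hb0 : B.factorial ≤ 2 ^ (B * B) := by
    calc B.factorial ≤ B ^ B := Nat.factorial_le_pow B
      _ ≤ (2 ^ B) ^ B := Nat.pow_le_pow_left Nat.lt_two_pow_self.le _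
      _ = 2 ^ (B * B) := by rw [← pow_mul]
  have hb1 : F1 ≤ 2 ^ (ε * T) := prod_le_two_pow' _ _ _ _ (by simpa using hmT) fun j _ => hfα2 j
  have hb2 : F2 ≤ 2 ^ (ε * T) := prod_le_two_pow' _ _ _ _ (by simpa using hmT) fun j _ => hfβ2 j
  have hb3 : F3 ≤ 2 ^ ((2 * D * (2 * D) + ε * (2 * D)) * (T * T)) := by
    apply prod_le_two_pow'
    · rw [Finset.offDiag_card, Finset.card_univ, Fintype.card_fin]
      exact (Nat.sub_le _ _).trans (Nat.mul_le_mul hmT hmT)
    · intro jj _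
      exact hϱb _ _
  have hb4 : F4 ≤ 2 ^ ((D + b + B + 1) * (k * k * T * (D * (2 * B + 1)))) := by
    apply prod_le_two_pow'
    · refine (Finset.card_filter_le _ _).trans ?_
      rw [Finset.card_product, Finset.card_product, Int.card_Icc, Int.card_Icc, Finset.card_univ]
      simp only [Fintype.card_prod, Fintype.card_fin]
      apply Nat.mul_le_mul
      · rw [← mul_assoc]
        exact Nat.mul_le_mul_left _ hmT
      · apply Nat.mul_le_mul
        · omega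
        · omega
    · intro z hz
      rw [hZ, Finset.mem_filter, Finset.mem_product, Finset.mem_product, Finset.mem_Icc,
        Finset.mem_Icc] at hz
      obtain ⟨⟨_, ⟨h1, h2⟩, h3, h4⟩, _⟩ := hz
      have h5 := he z.1.1 z.1.2.2
      have h6 := he z.1.2.1 z.1.2.2
      have h7 : ((e z.1.1 z.1.2.2 : ℤ) - e z.1.2.1 z.1.2.2).natAbs ≤ 2 ^ b := by omega
      have h8 : z.2.1.natAbs ≤ D := by omega
      have h9 : z.2.2.natAbs ≤ B := by omega
      refine (Int.natAbs_sub_le _ _).trans ?_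
      rw [Int.natAbs_mul]
      have h10 : z.2.1.natAbs * ((e z.1.1 z.1.2.2 : ℤ) - e z.1.2.1 z.1.2.2).natAbs ≤
          2 ^ (D + b + B) := by
        calc _ ≤ D * 2 ^ b := Nat.mul_le_mul h8 h7
          _ ≤ 2 ^ D * 2 ^ b := Nat.mul_le_mul_right _ Nat.lt_two_pow_self.le
          _ = 2 ^ (D + b) := by rw [pow_add]
          _ ≤ 2 ^ (D + b + B) := Nat.pow_le_pow_right (by norm_num) (by omega)
      have h11 : z.2.2.natAbs ≤ 2 ^ (D + b + B) := by
        calc _ ≤ B := h9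
          _ ≤ 2 ^ B := Nat.lt_two_pow_self.le
          _ ≤ 2 ^ (D + b + B) := Nat.pow_le_pow_right (by norm_num) (by omega)
      rw [pow_succ]
      omega
  have hb5 : F5 ≤ 2 ^ (k + ε * (1 + k * B * T)) :=
    natAbs_eval_class_le α I A f r ε (k * B * T) hAα2 hfα2 hrS
  set NB : ℕ := B.factorial * F1 * F2 * F3 * F4 * F5 with hNB
  have hNBne : NB ≠ 0 := by
    rw [hNB]
    exact mul_ne_zero (mul_ne_zero (mul_ne_zero (mul_ne_zero (mul_ne_zero
      (Nat.factorial_ne_zero _) hF1ne) hF2ne) hF3ne) hF4ne) hF5ne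
  have hNBle : NB ≤ 2 ^ (B * B + ε * T + ε * T + (2 * D * (2 * D) + ε * (2 * D)) * (T * T) +
      (D + b + B + 1) * (k * k * T * (D * (2 * B + 1))) + (k + ε * (1 + k * B * T))) := by
    rw [hNB, pow_add, pow_add, pow_add, pow_add, pow_add]
    exact Nat.mul_le_mul (Nat.mul_le_mul (Nat.mul_le_mul (Nat.mul_le_mul (Nat.mul_le_mul
      hb0 hb1) hb2) hb3) hb4) hb5
  obtain ⟨p, hp, hple, hpnd⟩ := Helper78_ACIT.exists_prime_not_dvd NB _ hNBne hNBle
  have : Fact p.Prime := ⟨hp⟩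
  refine ⟨p, hp, hple, ?_⟩
  have hnd : ∀ x, x ∣ NB → ¬ p ∣ x := fun x hx h => hpnd (h.trans hx)
  have hcast : ∀ z : ℤ, z.natAbs ∣ NB → (z : ZMod p) ≠ 0 := by
    intro z hz h0
    rw [ZMod.intCast_zmod_eq_zero_iff_dvd, Int.natCast_dvd] at h0
    exact hnd _ hz h0
  have hBp : B < p := by
    by_contra hcon
    push Not at hcon
    apply hnd B.factorial
    · rw [hNB]
      exact ((((Dvd.intro _ rfl).mul_right _).mul_right _).mul_right _).mul_right _
    · exact hp.dvd_factorial.2 hcon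
  have hdF1 : F1 ∣ NB := by
    rw [hNB]
    exact ((((Dvd.intro_left _ rfl).mul_right _).mul_right _).mul_right _).mul_right _
  have hdF2 : F2 ∣ NB := by
    rw [hNB]
    exact (((Dvd.intro_left _ rfl).mul_right _).mul_right _).mul_right _
  have hdF3 : F3 ∣ NB := by
    rw [hNB]
    exact ((Dvd.intro_left _ rfl).mul_right _).mul_right _
  have hdF4 : F4 ∣ NB := by
    rw [hNB]
    exact (Dvd.intro_left _ rfl).mul_right _
  have hdF5 : F5 ∣ NB := by
    rw [hNB]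
    exact Dvd.intro_left _ rfl
  have hgood : Good p e D B := by
    refine ⟨hBp, ?_⟩
    intro i i' j a' b' h1 h2 hb' hne' hdvd
    have hz : ((i, i', j), a', b') ∈ Z := by
      rw [hZ, Finset.mem_filter, Finset.mem_product, Finset.mem_product, Finset.mem_Icc,
        Finset.mem_Icc]
      rw [abs_le] at hb'
      exact ⟨⟨Finset.mem_univ _, ⟨h1, h2⟩, hb'⟩, sub_ne_zero.2 hne'⟩
    have h3 := hcast (a' * ((e i j : ℤ) - e i' j) - b')
      ((Finset.dvd_prod_of_mem (fun z : (Fin k × Fin k × Fin m) × ℤ × ℤ =>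
        (z.2.1 * ((e z.1.1 z.1.2.2 : ℤ) - e z.1.2.1 z.1.2.2) - z.2.2).natAbs) hz).trans hdF4)
    apply h3
    rw [ZMod.intCast_zmod_eq_zero_iff_dvd]
    exact hdvd
  refine ⟨w1, z1, w2, z2, fun N hN => ?_⟩
  rw [← hαdef, ← hβdef]
  refine hit_modp m k D B f A e e0 hdeg1 hdegD hAD α β ?_ ?_ ?_ H (hcast _ hdF5)
    G.connectedComponentMk q hfac hgood ?_ (by
      rw [← hB1]
      exact Nat.mul_le_mul_left _ (Nat.add_le_add_left (Nat.mul_le_mul_left _ hT) _)) N hN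
  · intro j
    exact hcast (MvPolynomial.eval α (f j)) ((Finset.dvd_prod_of_mem
      (fun j => (MvPolynomial.eval α (f j)).natAbs) (Finset.mem_univ j)).trans hdF1)
  · intro j
    exact hcast (MvPolynomial.eval β (topp (f j))) ((Finset.dvd_prod_of_mem
      (fun j => (MvPolynomial.eval β (topp (f j))).natAbs) (Finset.mem_univ j)).trans hdF2)
  · intro j j' hjj
    rw [← hϱ]
    have hmem : (j, j') ∈ (Finset.univ : Finset (Fin m)).offDiag :=
      Finset.mem_offDiag.2 ⟨Finset.mem_univ j, Finset.mem_univ j', hjj⟩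
    exact hcast (ϱ j j') ((Finset.dvd_prod_of_mem (fun jj : Fin m × Fin m =>
        (ϱ jj.1 jj.2).natAbs) hmem).trans hdF3)
  · intro i i' h
    by_cases hii : i = i'
    · rw [hii]
    · apply SimpleGraph.ConnectedComponent.sound
      apply SimpleGraph.Adj.reachable
      refine ⟨hii, fun j => ?_⟩
      have := h j
      rw [abs_le] at this
      constructor <;> omega

end Pool.Agent.Helper26_RS
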