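import Mathlib

set_option autoImplicit false

/-!
# Multiplying algebraically independent elements by a common factor
-/

namespace Pool.Agent.Helper26_RS

open AlgebraicIndependent

/-- Multiplying by a common nonzero factor lowers the algebraic rank by at most one. -/
theorem rel {F A : Type} [Field F] [CommRing A] [IsDomain A] [Algebra F A] {K : ℕ}
    (x : Fin (K + 2) → A) (hx : AlgebraicIndependent F x) (P : A) (hP : P ≠ 0) :
    ∃ v : Fin (K + 1) → Fin (K + 2), AlgebraicIndependent F fun a => P * x (v a) := by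
  classical
  have hfs : FaithfulSMul F A := inferInstance
  obtain ⟨M, hM⟩ : ∃ M : Matroid A, M = matroid F A := ⟨_, rfl⟩
  obtain ⟨S', hS'⟩ : ∃ S' : Set A, S' = Set.range fun i => P * x i := ⟨_, rfl⟩
  have hxinj : Function.Injective x := hx.injective
  have hind : M.Indep (Set.range x) := by
    rw [hM, matroid_indep_iff]
    exact hx.to_subtype_range
  have hcard : (Set.range x).encard = ((K + 2 : ℕ) : ℕ∞) := by
    rw [← Set.image_univ, hxinj.encard_image, Set.encard_univ]
    simp
  have hsub : Set.range x ⊆ M.closure (insert P S') := by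
    rintro _ ⟨i, rfl⟩
    rw [hM, matroid_closure_eq, SetLike.mem_coe, Subalgebra.mem_algebraicClosure]
    obtain ⟨P', hP'⟩ : ∃ P' : Algebra.adjoin F (insert P S'), (P' : A) = P :=
      ⟨⟨P, Algebra.subset_adjoin (Set.mem_insert _ _)⟩, rfl⟩
    obtain ⟨y', hy'⟩ : ∃ y' : Algebra.adjoin F (insert P S'), (y' : A) = P * x i :=
      ⟨⟨P * x i, Algebra.subset_adjoin (Set.mem_insert_of_mem _ (by rw [hS']; exact ⟨i, rfl⟩))⟩,
        rfl⟩
    refine ⟨Polynomial.C P' * Polynomial.X - Polynomial.C y', ?_, ?_⟩
    · intro h0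
      have h1 := congrArg (fun q => Polynomial.coeff q 1) h0
      simp only [Polynomial.coeff_sub, Polynomial.coeff_C_mul, Polynomial.coeff_X_one, mul_one,
        Polynomial.coeff_zero] at h1
      rw [Polynomial.coeff_C, if_neg one_ne_zero, sub_zero] at h1
      apply hP
      rw [← hP', h1]
      rfl
    · rw [map_sub, map_mul, Polynomial.aeval_C, Polynomial.aeval_C, Polynomial.aeval_X]
      change (P' : A) * x i - (y' : A) = 0
      rw [hP', hy', sub_self]
  have hle : ((K + 1 : ℕ) : ℕ∞) ≤ M.eRk S' := by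
    have h1 : ((K + 2 : ℕ) : ℕ∞) ≤ M.eRk S' + 1 := by
      rw [← hcard, ← hind.eRk_eq_encard]
      refine (M.eRk_mono hsub).trans ?_
      rw [Matroid.eRk_closure_eq]
      exact M.eRk_insert_le_add_one P S'
    have h2 : ((K + 2 : ℕ) : ℕ∞) = ((K + 1 : ℕ) : ℕ∞) + 1 := by push_cast; ring
    rw [h2] at h1
    exact (ENat.add_le_add_iff_right ENat.one_ne_top).1 h1
  obtain ⟨I, hIS, hI, hIc⟩ := Matroid.le_eRk_iff.1 hle
  rw [hM, matroid_indep_iff] at hI
  have hIfin : I.Finite := Set.finite_of_encard_eq_coe hIc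
  obtain ⟨I', rfl⟩ := hIfin.exists_finset_coe
  rw [Set.encard_coe_eq_coe_finsetCard] at hIc
  have hIc' : I'.card = K + 1 := by exact_mod_cast hIc
  obtain ⟨en⟩ : Nonempty (Fin (K + 1) ≃ I') := ⟨(I'.equivFinOfCardEq hIc').symm⟩
  have hex : ∀ a, ∃ i, P * x i = (en a : A) := by
    intro a
    have h3 := hIS (en a).2
    rw [hS'] at h3
    exact h3
  choose v hv using hex
  refine ⟨v, ?_⟩
  have h4 : AlgebraicIndependent F fun a : Fin (K + 1) => ((en a : I') : A) := by
    have h5 := AlgebraicIndependent.comp (x := fun i : (I' : Set A) => (i : A)) hI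
      (fun a => ⟨(en a : A), (en a).2⟩) (by
        intro a b hab
        have h6 : (en a : A) = (en b : A) := congrArg (fun z : (I' : Set A) => (z : A)) hab
        exact en.injective (Subtype.ext h6))
    exact h5
  have h7 : (fun a => P * x (v a)) = fun a : Fin (K + 1) => ((en a : I') : A) := by
    funext a
    exact hv a
  rw [h7]
  exact h4

end Pool.Agent.Helper26_RS
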