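import Mathlib
import Pool.Agent.Helper12_FV.General
import Pool.Agent.Helper26_RS.Hit
import Pool.Agent.Helper26_RS.Rel

set_option autoImplicit false
set_option linter.unusedSectionVars false

/-!
# The hitting theorem for arbitrary primitive base polynomials
-/

namespace Pool.Agent.Helper26_RS

open Polynomial Pool.Agent Pool.Agent.UO Pool.Agent.Helper12_FV Pool.Agent.Helper12_D3

/-- The hitting property of seed length `t` for sums of `k` products of polynomials of degree at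
most `d` over `ℚ`. -/
def Pit (k d t : ℕ) : Prop :=
  ∀ (n : ℕ) (s : Fin k → List (MvPolynomial (Fin n) ℚ)),
    (∀ i, ∀ g ∈ s i, g.totalDegree ≤ d) → ∑ i, (s i).prod ≠ 0 →
    ∃ w z : Fin t → ℚ, MvPolynomial.eval (point n w z)
      (MvPolynomial.rename Fin.val (∑ i, (s i).prod) : MvPolynomial ℕ ℚ) ≠ 0

lemma hit_of_pit {κ0 D t2 : ℕ} (pit : Pit κ0 D t2) {n k m : ℕ}
    (A : Fin k → MvPolynomial (Fin n) ℤ) (f : Fin m → MvPolynomial (Fin n) ℤ)
    (hAD : ∀ i, (A i).totalDegree ≤ D) (hdegD : ∀ j, (f j).totalDegree ≤ D)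
    (I : Finset (Fin k)) (r : Fin k → Fin m → ℕ) (hI : I.card ≤ κ0)
    (hne : ∑ i ∈ I, A i * ∏ j, f j ^ r i j ≠ 0) : Hit t2 (∑ i ∈ I, A i * ∏ j, f j ^ r i j) := by
  classical
  obtain ⟨φ, hφ⟩ : ∃ φ : MvPolynomial (Fin n) ℤ →+* MvPolynomial (Fin n) ℚ,
    φ = MvPolynomial.map (Int.castRingHom ℚ) := ⟨_, rfl⟩
  have hφinj : Function.Injective φ := by
    rw [hφ]
    exact MvPolynomial.map_injective _ (RingHom.injective_int _)
  have hdeg : ∀ g, (φ g).totalDegree ≤ g.totalDegree := by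
    intro g
    rw [hφ]
    exact Finset.sup_mono (MvPolynomial.support_map_subset _ _)
  -- the list of factors of a term
  obtain ⟨L, hL⟩ : ∃ L : Fin k → List (MvPolynomial (Fin n) ℚ), L = fun i => φ (A i) ::
      (List.finRange m).flatMap fun j => List.replicate (r i j) (φ (f j)) := ⟨_, rfl⟩
  have hLprod : ∀ i, (L i).prod = φ (A i * ∏ j, f j ^ r i j) := by
    intro i
    rw [hL]
    simp only
    rw [List.prod_cons, map_mul, map_prod]
    congr 1
    rw [List.flatMap, List.prod_flatten, List.map_map]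
    have h1 : (List.prod ∘ fun j => List.replicate (r i j) (φ (f j))) =
        fun j => φ (f j ^ r i j) := by
      funext j
      simp [List.prod_replicate]
    rw [h1, ← List.prod_ofFn, List.ofFn_eq_map]
  have hLdeg : ∀ i, ∀ g ∈ L i, g.totalDegree ≤ D := by
    intro i g hg
    rw [hL] at hg
    simp only [List.mem_cons, List.mem_flatMap, List.mem_replicate] at hg
    rcases hg with rfl | ⟨j, -, -, rfl⟩
    · exact (hdeg _).trans (hAD i)
    · exact (hdeg _).trans (hdegD j)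
  -- enumeration of `I`
  obtain ⟨en⟩ : Nonempty (Fin I.card ≃ I) := ⟨I.equivFin.symm⟩
  obtain ⟨s, hs⟩ : ∃ s : Fin κ0 → List (MvPolynomial (Fin n) ℚ), s = fun a : Fin κ0 =>
      if h : (a : ℕ) < I.card then L (en ⟨(a : ℕ), h⟩ : Fin k) else [0] := ⟨_, rfl⟩
  have hsum : ∑ a, (s a).prod = φ (∑ i ∈ I, A i * ∏ j, f j ^ r i j) := by
    have h1 : φ (∑ i ∈ I, A i * ∏ j, f j ^ r i j) = ∑ a : Fin I.card, (L (en a : Fin k)).prod := by
      rw [map_sum, ← Finset.sum_attach, Finset.attach_eq_univ,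
        ← Equiv.sum_comp en fun i : I => φ (A i * ∏ j, f j ^ r (i : Fin k) j)]
      exact Finset.sum_congr rfl fun a _ => (hLprod _).symm
    obtain ⟨r0, hr0⟩ := Nat.exists_eq_add_of_le hI
    subst hr0
    rw [h1, Fin.sum_univ_add]
    have h2 : ∀ a : Fin I.card, (s (Fin.castAdd r0 a)).prod = (L (en a : Fin k)).prod := by
      intro a
      rw [hs]
      simp
    have h3 : ∀ a : Fin r0, (s (Fin.natAdd I.card a)).prod = 0 := by
      intro a
      rw [hs]
      simp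
    rw [Finset.sum_congr rfl fun a _ => h2 a, Finset.sum_congr rfl fun a _ => h3 a]
    simp
  have hsdeg : ∀ a, ∀ g ∈ s a, g.totalDegree ≤ D := by
    intro a g hg
    rw [hs] at hg
    simp only at hg
    split_ifs at hg with h
    · exact hLdeg _ g hg
    · simp only [List.mem_cons, List.not_mem_nil, or_false] at hg
      rw [hg]
      simp
  have h0 : ∑ a, (s a).prod ≠ 0 := by
    rw [hsum]
    intro h
    apply hne
    apply hφinj
    rw [h, map_zero]
  have h1 := pit n s hsdeg h0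
  rw [hsum, hφ] at h1
  exact hit_of_rat h1

/-- The hitting property of seed length `t` for all polynomials in products of polynomials of degree
at most `d` over `ℚ`, if any `k + 1` of the products are algebraically dependent. -/
def AlgPit (k d t : ℕ) : Prop :=
  ∀ (n M : ℕ) (s : Fin M → List (MvPolynomial (Fin n) ℚ)),
    (∀ i, ∀ g ∈ s i, g.totalDegree ≤ d) →
    (∀ v : Fin (k + 1) → Fin M, ¬ AlgebraicIndependent ℚ fun a => (s (v a)).prod) →
    ∀ C : MvPolynomial (Fin M) ℚ, MvPolynomial.aeval (fun i => (s i).prod) C ≠ 0 →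
    ∃ w z : Fin t → ℚ, MvPolynomial.eval (point n w z)
      (MvPolynomial.rename Fin.val (MvPolynomial.aeval (fun i => (s i).prod) C) :
        MvPolynomial ℕ ℚ) ≠ 0

lemma hit_of_algpit {k D t2 : ℕ} (pit : AlgPit (k + 1) D t2) {n N m : ℕ}
    (A : Fin N → MvPolynomial (Fin n) ℤ) (f : Fin m → MvPolynomial (Fin n) ℤ)
    (hAD : ∀ i, (A i).totalDegree ≤ D) (hdegD : ∀ j, (f j).totalDegree ≤ D)
    (hf0 : ∀ j, f j ≠ 0)
    (I : Finset (Fin N)) (e : Fin N → Fin m → ℕ) (e0 : Fin m → ℕ) (r : Fin N → Fin m → ℕ)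
    (her : ∀ i ∈ I, ∀ j, e i j = e0 j + r i j)
    (hrank : ∀ v : Fin (k + 1) → Fin N, (∀ a, v a ∈ I) →
      ¬ AlgebraicIndependent ℤ fun a => A (v a) * ∏ j, f j ^ e (v a) j)
    (hne : ∑ i ∈ I, A i * ∏ j, f j ^ r i j ≠ 0) : Hit t2 (∑ i ∈ I, A i * ∏ j, f j ^ r i j) := by
  classical
  obtain ⟨φ, hφ⟩ : ∃ φ : MvPolynomial (Fin n) ℤ →+* MvPolynomial (Fin n) ℚ,
    φ = MvPolynomial.map (Int.castRingHom ℚ) := ⟨_, rfl⟩
  have hφinj : Function.Injective φ := by
    rw [hφ]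
    exact MvPolynomial.map_injective _ (RingHom.injective_int _)
  have hdeg : ∀ g, (φ g).totalDegree ≤ g.totalDegree := by
    intro g
    rw [hφ]
    exact Finset.sup_mono (MvPolynomial.support_map_subset _ _)
  -- the list of factors of a term
  obtain ⟨L, hL⟩ : ∃ L : Fin N → List (MvPolynomial (Fin n) ℚ), L = fun i => φ (A i) ::
      (List.finRange m).flatMap fun j => List.replicate (r i j) (φ (f j)) := ⟨_, rfl⟩
  have hLprod : ∀ i, (L i).prod = φ (A i * ∏ j, f j ^ r i j) := by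
    intro i
    rw [hL]
    simp only
    rw [List.prod_cons, map_mul, map_prod]
    congr 1
    rw [List.flatMap, List.prod_flatten, List.map_map]
    have h1 : (List.prod ∘ fun j => List.replicate (r i j) (φ (f j))) =
        fun j => φ (f j ^ r i j) := by
      funext j
      simp [List.prod_replicate]
    rw [h1, ← List.prod_ofFn, List.ofFn_eq_map]
  have hLdeg : ∀ i, ∀ g ∈ L i, g.totalDegree ≤ D := by
    intro i g hg
    rw [hL] at hg
    simp only [List.mem_cons, List.mem_flatMap, List.mem_replicate] at hg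
    rcases hg with rfl | ⟨j, -, -, rfl⟩
    · exact (hdeg _).trans (hAD i)
    · exact (hdeg _).trans (hdegD j)
  -- enumeration of `I`
  obtain ⟨en⟩ : Nonempty (Fin I.card ≃ I) := ⟨I.equivFin.symm⟩
  have hsum : MvPolynomial.aeval (fun a : Fin I.card => (L (en a : Fin N)).prod)
      (∑ a, (MvPolynomial.X a : MvPolynomial (Fin I.card) ℚ)) =
      φ (∑ i ∈ I, A i * ∏ j, f j ^ r i j) := by
    rw [map_sum, map_sum, ← Finset.sum_attach (s := I), Finset.attach_eq_univ,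
      ← Equiv.sum_comp en fun i : I => φ (A i * ∏ j, f j ^ r (i : Fin N) j)]
    refine Finset.sum_congr rfl fun a _ => ?_
    rw [MvPolynomial.aeval_X]
    exact hLprod _
  have hP0 : φ (∏ j, f j ^ e0 j) ≠ 0 := by
    intro h0
    rw [← map_zero φ] at h0
    exact Finset.prod_ne_zero_iff.2 (fun j _ => pow_ne_zero _ (hf0 j)) (hφinj h0)
  have hmul : ∀ i ∈ I, φ (∏ j, f j ^ e0 j) * φ (A i * ∏ j, f j ^ r i j) =
      φ (A i * ∏ j, f j ^ e i j) := by
    intro i hi
    rw [← map_mul]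
    congr 1
    rw [mul_left_comm, ← Finset.prod_mul_distrib]
    congr 1
    apply Finset.prod_congr rfl
    intro j _
    rw [← pow_add, her i hi j]
  have hdep : ∀ v : Fin (k + 1 + 1) → Fin I.card,
      ¬ AlgebraicIndependent ℚ fun a => (L (en (v a) : Fin N)).prod := by
    intro v hv
    obtain ⟨v', hv'⟩ := rel (fun a => (L (en (v a) : Fin N)).prod) hv _ hP0
    apply hrank (fun a => (en (v (v' a)) : Fin N)) fun a => (en (v (v' a))).2
    have h1 : (fun a => φ (∏ j, f j ^ e0 j) * (L (en (v (v' a)) : Fin N)).prod) =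
        fun a => φ (A (en (v (v' a))) * ∏ j, f j ^ e (en (v (v' a))) j) := by
      funext a
      rw [hLprod]
      exact hmul _ (en (v (v' a))).2
    rw [h1] at hv'
    have h2 := hv'.restrictScalars (R := ℤ) (RingHom.injective_int _)
    exact AlgebraicIndependent.of_comp φ.toIntAlgHom h2
  have h0 : MvPolynomial.aeval (fun a : Fin I.card => (L (en a : Fin N)).prod)
      (∑ a, (MvPolynomial.X a : MvPolynomial (Fin I.card) ℚ)) ≠ 0 := by
    rw [hsum]
    intro h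
    apply hne
    apply hφinj
    rw [h, map_zero]
  have h1 := pit n I.card (fun a => L (en a : Fin N)) (fun a => hLdeg _) hdep _ h0
  rw [hsum, hφ] at h1
  exact hit_of_rat h1

theorem exists_hit_general_gen {n : ℕ} (m k κ0 D T b c ε B t1 t2 DD : ℕ)
    (f : Fin m → MvPolynomial (Fin n) ℤ)
    (A : Fin k → MvPolynomial (Fin n) ℤ) (e : Fin k → Fin m → ℕ)
    (hprim : ∀ j, ∀ z : ℤ, MvPolynomial.C z ∣ f j → IsUnit z)
    (hdegD : ∀ j, (f j).totalDegree ≤ D) (hAD : ∀ i, (A i).totalDegree ≤ D)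
    (hflen : ∀ j, len (f j) ≤ 2 ^ b) (hAlen : ∀ i, len (A i) ≤ 2 ^ b)
    (he : ∀ i j, e i j ≤ 2 ^ b) (hT : m * D ≤ T) (hc : m + D + b ≤ c)
    (hB1 : k * (D + k * T) = B) (ht1 : D ≤ t1) (ht2 : D ≤ t2) (ht2' : 2 * D * D ≤ t2)
    (hDD : T + T * T * (2 * D * D) + (D + k * B * T) = DD)
    (hε : b + (t1 + t2 + n * (n * (DD + 1)) + 1) * D + 2 * D ≤ ε)
    (hk : k ≤ κ0) (pit : Pit κ0 D t2)
    (hne : ∑ i, A i * ∏ j, f j ^ e i j ≠ 0) :
    ∃ p, p.Prime ∧ p ≤ 64 * (LL k T D c ε B + 1) ^ 2 ∧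
      ∃ (w1 z1 : Fin t1 → ℕ) (w2 z2 : Fin t2 → ℕ), ∀ N, B + k ≤ N →
      ¬ (X : (ZMod p)[X]) ^ N ∣ onl (fun s => (ipt n w2 z2 s : ZMod p))
        (fun s => (ipt n w1 z1 s : ZMod p)) (∑ i, A i * ∏ j, f j ^ e i j) := by
  classical
  obtain ⟨M, hMdef⟩ : ∃ M, M = 2 ^ (t1 + t2 + n * (n * (DD + 1))) := ⟨_, rfl⟩
  obtain ⟨w, hwdef⟩ : ∃ w, w = t1 + t2 + n * (n * (DD + 1)) + 1 := ⟨_, rfl⟩
  have hM0 : 1 ≤ M := by rw [hMdef]; exact Nat.one_le_two_pow
  have hw : 2 * M ≤ 2 ^ w := by rw [hMdef, hwdef, pow_succ, mul_comm]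
  rw [← hwdef] at hε
  have hsumT : ∑ j, (f j).totalDegree ≤ T := by
    refine le_trans ?_ hT
    refine (Finset.sum_le_sum fun j _ => hdegD j).trans ?_
    simp
  obtain ⟨m', g, a, u, hu, hg1, hgd, hgT, hrel, hfac, haD⟩ :=
    exists_factorization m D T f hprim hdegD hsumT
  have hf0 : ∀ j, f j ≠ 0 := by
    intro j h0
    have := hprim j 0 (by rw [h0]; exact dvd_zero _)
    exact not_isUnit_zero this
  have hgD : ∀ t, (g t).totalDegree ≤ D := by
    intro t
    obtain ⟨j, hj⟩ := hgd t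
    exact (MvPolynomial.totalDegree_le_of_dvd_of_isDomain hj (hf0 j)).trans (hdegD j)
  have hunit : ∀ i, IsUnit (∏ j, u j ^ e i j) := by
    intro i
    rw [IsUnit.prod_univ_iff]
    exact fun j => (hu j).pow _
  have hrw : ∀ i, A i * ∏ j, f j ^ e i j =
      (A i * ∏ j, u j ^ e i j) * ∏ t, g t ^ (∑ j, a j t * e i j) := by
    intro i
    have h1 : ∏ j, f j ^ e i j = (∏ j, u j ^ e i j) * ∏ t, g t ^ (∑ j, a j t * e i j) := by
      have h2 : ∀ j, f j ^ e i j = u j ^ e i j * ∏ t, g t ^ (a j t * e i j) := by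
        intro j
        conv_lhs => rw [hfac j]
        rw [mul_pow, ← Finset.prod_pow]
        congr 1
        exact Finset.prod_congr rfl fun t _ => by rw [pow_mul]
      rw [Finset.prod_congr rfl fun j _ => h2 j, Finset.prod_mul_distrib, Finset.prod_comm]
      congr 1
      exact Finset.prod_congr rfl fun t _ => Finset.prod_pow_eq_pow_sum _ _ _
    rw [h1, mul_assoc]
  have hrw' : ∑ i, A i * ∏ j, f j ^ e i j =
      ∑ i, (A i * ∏ j, u j ^ e i j) * ∏ t, g t ^ (∑ j, a j t * e i j) :=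
    Finset.sum_congr rfl fun i _ => hrw i
  rw [hrw'] at hne ⊢
  obtain ⟨A', hA'⟩ : ∃ A' : Fin k → MvPolynomial (Fin n) ℤ, A' = fun i => A i * ∏ j, u j ^ e i j :=
    ⟨_, rfl⟩
  obtain ⟨e', he'⟩ : ∃ e' : Fin k → Fin m' → ℕ, e' = fun i t => ∑ j, a j t * e i j := ⟨_, rfl⟩
  have hrw2 : ∑ i, (A i * ∏ j, u j ^ e i j) * ∏ t, g t ^ (∑ j, a j t * e i j) =
      ∑ i, A' i * ∏ t, g t ^ e' i t := by
    rw [hA', he']
  rw [hrw2] at hne ⊢
  have h2D : D + 1 ≤ 2 ^ D := Nat.lt_two_pow_self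
  have hd1 : ∀ i, (A' i).totalDegree ≤ D := by
    intro i
    rw [hA']
    refine (MvPolynomial.totalDegree_mul _ _).trans ?_
    rw [totalDegree_unit (hunit i), add_zero]
    exact hAD i
  have hd2 : ∀ i t, e' i t ≤ 2 ^ c := by
    intro i t
    rw [he']
    calc ∑ j, a j t * e i j ≤ ∑ _j : Fin m, D * 2 ^ b :=
          Finset.sum_le_sum fun j _ => Nat.mul_le_mul (haD j t) (he i j)
      _ = m * (D * 2 ^ b) := by simp
      _ ≤ 2 ^ m * (2 ^ D * 2 ^ b) := Nat.mul_le_mul Nat.lt_two_pow_self.le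
          (Nat.mul_le_mul_right _ Nat.lt_two_pow_self.le)
      _ = 2 ^ (m + D + b) := by rw [pow_add, pow_add, mul_assoc]
      _ ≤ 2 ^ c := Nat.pow_le_pow_right (by norm_num) hc
  have hd3 : ∀ α β : Fin n → ℤ, (∀ s, (α s).natAbs ≤ M) → (∀ s, (β s).natAbs ≤ M) →
      (∀ t, MvPolynomial.eval α (g t) ≠ 0) →
      ∀ t i, ((onl α β (g t)).coeff i).natAbs ≤ 2 ^ ε := by
    intro α β hα hβ hz t i
    obtain ⟨j, hj⟩ := hgd t
    have h1 : onl α β (f j) ≠ 0 := by
      intro h0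
      have h3 : MvPolynomial.eval α (f j) = 0 := by
        have := eval_zero_onl α β (f j)
        rw [h0, eval_zero] at this
        exact this.symm
      rw [hfac j, map_mul, map_prod] at h3
      rcases mul_eq_zero.1 h3 with h4 | h4
      · have := natAbs_eval_unit α (hu j)
        rw [h4] at this
        simp at this
      · rw [Finset.prod_eq_zero_iff] at h4
        obtain ⟨t', -, h5⟩ := h4
        rw [map_pow] at h5
        exact hz t' (eq_zero_of_pow_eq_zero h5)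
    have hdv : onl α β (g t) ∣ onl α β (f j) := by
      obtain ⟨r, hr⟩ := hj
      rw [hr, map_mul]
      exact Dvd.intro _ rfl
    have hbd : ∀ i, ((onl α β (f j)).coeff i).natAbs ≤ len (f j) * (2 * M) ^ D := fun i =>
      natAbs_coeff_onl_le α β M D hM0 hα hβ (f j) (hdegD j) i
    have hnd : (onl α β (f j)).natDegree ≤ D := (natDegree_onl_le _ _ _).trans (hdegD j)
    obtain ⟨E, hE⟩ : ∃ E, E = len (f j) * (2 * M) ^ D := ⟨_, rfl⟩
    rw [← hE] at hbd
    have h2 := mignotte (onl α β (f j)) (onl α β (g t)) D E hdv h1 hnd hbd i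
    refine h2.trans ?_
    rw [hE]
    calc 2 ^ D * ((D + 1) * (len (f j) * (2 * M) ^ D))
        ≤ 2 ^ D * (2 ^ D * (2 ^ b * (2 ^ w) ^ D)) := Nat.mul_le_mul_left _ (Nat.mul_le_mul h2D
          (Nat.mul_le_mul (hflen j) (Nat.pow_le_pow_left hw _)))
      _ = 2 ^ (b + w * D + 2 * D) := by
          rw [← pow_mul, ← pow_add, ← pow_add, ← pow_add]
          congr 1
          ring
      _ ≤ 2 ^ ε := Nat.pow_le_pow_right (by norm_num) hε
  have hd4 : ∀ α : Fin n → ℤ, (∀ s, (α s).natAbs ≤ M) →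
      ∀ i, (MvPolynomial.eval α (A' i)).natAbs ≤ 2 ^ ε := by
    intro α hα i
    rw [hA', map_mul, Int.natAbs_mul, natAbs_eval_unit α (hunit i), mul_one]
    refine (natAbs_eval_le α M D hM0 hα (A i) (hAD i)).trans ?_
    calc len (A i) * (2 * M) ^ D ≤ 2 ^ b * (2 ^ w) ^ D :=
          Nat.mul_le_mul (hAlen i) (Nat.pow_le_pow_left hw _)
      _ = 2 ^ (b + w * D) := by rw [← pow_mul, ← pow_add]
      _ ≤ 2 ^ ε := Nat.pow_le_pow_right (by norm_num) (by omega)
  refine exists_hit_gen m' k D T c ε B t1 t2 DD g A' e' hg1 hgD hgT hd1 hrel hd2 hB1 ht1 ht2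
    ht2' hDD ?_ ?_ ?_ hne
  · rw [← hMdef]
    exact hd3
  · rw [← hMdef]
    exact hd4
  · intro i0 e0 r _ hne'
    refine hit_of_pit pit A' g hd1 hgD _ r (le_trans ?_ hk) hne'
    have := Finset.card_le_univ (cluster e' B i0)
    rwa [Fintype.card_fin] at this


theorem exists_hit_general_alg {n : ℕ} (m k κ0 D T b c ε B t1 t2 DD : ℕ)
    (f : Fin m → MvPolynomial (Fin n) ℤ)
    (A : Fin k → MvPolynomial (Fin n) ℤ) (e : Fin k → Fin m → ℕ)
    (hprim : ∀ j, ∀ z : ℤ, MvPolynomial.C z ∣ f j → IsUnit z)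
    (hdegD : ∀ j, (f j).totalDegree ≤ D) (hAD : ∀ i, (A i).totalDegree ≤ D)
    (hflen : ∀ j, len (f j) ≤ 2 ^ b) (hAlen : ∀ i, len (A i) ≤ 2 ^ b)
    (he : ∀ i j, e i j ≤ 2 ^ b) (hT : m * D ≤ T) (hc : m + D + b ≤ c)
    (hB1 : k * (D + k * T) = B) (ht1 : D ≤ t1) (ht2 : D ≤ t2) (ht2' : 2 * D * D ≤ t2)
    (hDD : T + T * T * (2 * D * D) + (D + k * B * T) = DD)
    (hε : b + (t1 + t2 + n * (n * (DD + 1)) + 1) * D + 2 * D ≤ ε)
    (hrank : ∀ v : Fin (κ0 + 1) → Fin k,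
      ¬ AlgebraicIndependent ℤ fun a => A (v a) * ∏ j, f j ^ e (v a) j)
    (pit : AlgPit (κ0 + 1) D t2)
    (hne : ∑ i, A i * ∏ j, f j ^ e i j ≠ 0) :
    ∃ p, p.Prime ∧ p ≤ 64 * (LL k T D c ε B + 1) ^ 2 ∧
      ∃ (w1 z1 : Fin t1 → ℕ) (w2 z2 : Fin t2 → ℕ), ∀ N, B + k ≤ N →
      ¬ (X : (ZMod p)[X]) ^ N ∣ onl (fun s => (ipt n w2 z2 s : ZMod p))
        (fun s => (ipt n w1 z1 s : ZMod p)) (∑ i, A i * ∏ j, f j ^ e i j) := by
  classical
  obtain ⟨M, hMdef⟩ : ∃ M, M = 2 ^ (t1 + t2 + n * (n * (DD + 1))) := ⟨_, rfl⟩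
  obtain ⟨w, hwdef⟩ : ∃ w, w = t1 + t2 + n * (n * (DD + 1)) + 1 := ⟨_, rfl⟩
  have hM0 : 1 ≤ M := by rw [hMdef]; exact Nat.one_le_two_pow
  have hw : 2 * M ≤ 2 ^ w := by rw [hMdef, hwdef, pow_succ, mul_comm]
  rw [← hwdef] at hε
  have hsumT : ∑ j, (f j).totalDegree ≤ T := by
    refine le_trans ?_ hT
    refine (Finset.sum_le_sum fun j _ => hdegD j).trans ?_
    simp
  obtain ⟨m', g, a, u, hu, hg1, hgd, hgT, hrel, hfac, haD⟩ :=
    exists_factorization m D T f hprim hdegD hsumT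
  have hf0 : ∀ j, f j ≠ 0 := by
    intro j h0
    have := hprim j 0 (by rw [h0]; exact dvd_zero _)
    exact not_isUnit_zero this
  have hgD : ∀ t, (g t).totalDegree ≤ D := by
    intro t
    obtain ⟨j, hj⟩ := hgd t
    exact (MvPolynomial.totalDegree_le_of_dvd_of_isDomain hj (hf0 j)).trans (hdegD j)
  have hunit : ∀ i, IsUnit (∏ j, u j ^ e i j) := by
    intro i
    rw [IsUnit.prod_univ_iff]
    exact fun j => (hu j).pow _
  have hrw : ∀ i, A i * ∏ j, f j ^ e i j =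
      (A i * ∏ j, u j ^ e i j) * ∏ t, g t ^ (∑ j, a j t * e i j) := by
    intro i
    have h1 : ∏ j, f j ^ e i j = (∏ j, u j ^ e i j) * ∏ t, g t ^ (∑ j, a j t * e i j) := by
      have h2 : ∀ j, f j ^ e i j = u j ^ e i j * ∏ t, g t ^ (a j t * e i j) := by
        intro j
        conv_lhs => rw [hfac j]
        rw [mul_pow, ← Finset.prod_pow]
        congr 1
        exact Finset.prod_congr rfl fun t _ => by rw [pow_mul]
      rw [Finset.prod_congr rfl fun j _ => h2 j, Finset.prod_mul_distrib, Finset.prod_comm]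
      congr 1
      exact Finset.prod_congr rfl fun t _ => Finset.prod_pow_eq_pow_sum _ _ _
    rw [h1, mul_assoc]
  have hrw' : ∑ i, A i * ∏ j, f j ^ e i j =
      ∑ i, (A i * ∏ j, u j ^ e i j) * ∏ t, g t ^ (∑ j, a j t * e i j) :=
    Finset.sum_congr rfl fun i _ => hrw i
  rw [hrw'] at hne ⊢
  obtain ⟨A', hA'⟩ : ∃ A' : Fin k → MvPolynomial (Fin n) ℤ, A' = fun i => A i * ∏ j, u j ^ e i j :=
    ⟨_, rfl⟩
  obtain ⟨e', he'⟩ : ∃ e' : Fin k → Fin m' → ℕ, e' = fun i t => ∑ j, a j t * e i j := ⟨_, rfl⟩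
  have hrw2 : ∑ i, (A i * ∏ j, u j ^ e i j) * ∏ t, g t ^ (∑ j, a j t * e i j) =
      ∑ i, A' i * ∏ t, g t ^ e' i t := by
    rw [hA', he']
  rw [hrw2] at hne ⊢
  have h2D : D + 1 ≤ 2 ^ D := Nat.lt_two_pow_self
  have hd1 : ∀ i, (A' i).totalDegree ≤ D := by
    intro i
    rw [hA']
    refine (MvPolynomial.totalDegree_mul _ _).trans ?_
    rw [totalDegree_unit (hunit i), add_zero]
    exact hAD i
  have hd2 : ∀ i t, e' i t ≤ 2 ^ c := by
    intro i t
    rw [he']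
    calc ∑ j, a j t * e i j ≤ ∑ _j : Fin m, D * 2 ^ b :=
          Finset.sum_le_sum fun j _ => Nat.mul_le_mul (haD j t) (he i j)
      _ = m * (D * 2 ^ b) := by simp
      _ ≤ 2 ^ m * (2 ^ D * 2 ^ b) := Nat.mul_le_mul Nat.lt_two_pow_self.le
          (Nat.mul_le_mul_right _ Nat.lt_two_pow_self.le)
      _ = 2 ^ (m + D + b) := by rw [pow_add, pow_add, mul_assoc]
      _ ≤ 2 ^ c := Nat.pow_le_pow_right (by norm_num) hc
  have hd3 : ∀ α β : Fin n → ℤ, (∀ s, (α s).natAbs ≤ M) → (∀ s, (β s).natAbs ≤ M) →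
      (∀ t, MvPolynomial.eval α (g t) ≠ 0) →
      ∀ t i, ((onl α β (g t)).coeff i).natAbs ≤ 2 ^ ε := by
    intro α β hα hβ hz t i
    obtain ⟨j, hj⟩ := hgd t
    have h1 : onl α β (f j) ≠ 0 := by
      intro h0
      have h3 : MvPolynomial.eval α (f j) = 0 := by
        have := eval_zero_onl α β (f j)
        rw [h0, eval_zero] at this
        exact this.symm
      rw [hfac j, map_mul, map_prod] at h3
      rcases mul_eq_zero.1 h3 with h4 | h4
      · have := natAbs_eval_unit α (hu j)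
        rw [h4] at this
        simp at this
      · rw [Finset.prod_eq_zero_iff] at h4
        obtain ⟨t', -, h5⟩ := h4
        rw [map_pow] at h5
        exact hz t' (eq_zero_of_pow_eq_zero h5)
    have hdv : onl α β (g t) ∣ onl α β (f j) := by
      obtain ⟨r, hr⟩ := hj
      rw [hr, map_mul]
      exact Dvd.intro _ rfl
    have hbd : ∀ i, ((onl α β (f j)).coeff i).natAbs ≤ len (f j) * (2 * M) ^ D := fun i =>
      natAbs_coeff_onl_le α β M D hM0 hα hβ (f j) (hdegD j) i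
    have hnd : (onl α β (f j)).natDegree ≤ D := (natDegree_onl_le _ _ _).trans (hdegD j)
    obtain ⟨E, hE⟩ : ∃ E, E = len (f j) * (2 * M) ^ D := ⟨_, rfl⟩
    rw [← hE] at hbd
    have h2 := mignotte (onl α β (f j)) (onl α β (g t)) D E hdv h1 hnd hbd i
    refine h2.trans ?_
    rw [hE]
    calc 2 ^ D * ((D + 1) * (len (f j) * (2 * M) ^ D))
        ≤ 2 ^ D * (2 ^ D * (2 ^ b * (2 ^ w) ^ D)) := Nat.mul_le_mul_left _ (Nat.mul_le_mul h2D
          (Nat.mul_le_mul (hflen j) (Nat.pow_le_pow_left hw _)))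
      _ = 2 ^ (b + w * D + 2 * D) := by
          rw [← pow_mul, ← pow_add, ← pow_add, ← pow_add]
          congr 1
          ring
      _ ≤ 2 ^ ε := Nat.pow_le_pow_right (by norm_num) hε
  have hd4 : ∀ α : Fin n → ℤ, (∀ s, (α s).natAbs ≤ M) →
      ∀ i, (MvPolynomial.eval α (A' i)).natAbs ≤ 2 ^ ε := by
    intro α hα i
    rw [hA', map_mul, Int.natAbs_mul, natAbs_eval_unit α (hunit i), mul_one]
    refine (natAbs_eval_le α M D hM0 hα (A i) (hAD i)).trans ?_
    calc len (A i) * (2 * M) ^ D ≤ 2 ^ b * (2 ^ w) ^ D :=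
          Nat.mul_le_mul (hAlen i) (Nat.pow_le_pow_left hw _)
      _ = 2 ^ (b + w * D) := by rw [← pow_mul, ← pow_add]
      _ ≤ 2 ^ ε := Nat.pow_le_pow_right (by norm_num) (by omega)
  have hg0 : ∀ t, g t ≠ 0 := by
    intro t h0
    have := hg1 t
    rw [h0] at this
    simp at this
  refine exists_hit_gen m' k D T c ε B t1 t2 DD g A' e' hg1 hgD hgT hd1 hrel hd2 hB1 ht1 ht2
    ht2' hDD ?_ ?_ ?_ hne
  · rw [← hMdef]
    exact hd3
  · rw [← hMdef]
    exact hd4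
  · intro i0 e0 r her hne'
    refine hit_of_algpit pit A' g hd1 hgD hg0 _ e' e0 r her ?_ hne'
    intro v _
    have h9 : (fun a => A' (v a) * ∏ t, g t ^ e' (v a) t) =
        fun a => A (v a) * ∏ j, f j ^ e (v a) j := by
      funext a
      rw [hA', he']
      exact (hrw (v a)).symm
    rw [h9]
    exact hrank v

end Pool.Agent.Helper26_RS
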