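import Mathlib
import Pool.Agent.Helper12_FV.Bound
import Pool.Agent.Helper26_RS.General

set_option autoImplicit false

/-!
# Explicit bounds
-/

namespace Pool.Agent.Helper26_RS

open Pool.Agent.Helper12_FV

lemma bound_gen (n m k b D t R B DD c ε : ℕ) (hR : R = n + m + k + b + D + t + 2)
    (hB : k * (D + k * (m * D)) = B) (hc : c = m + D + b)
    (hDD : m * D + m * D * (m * D) * (2 * D * D) + (D + k * B * (m * D)) = DD)
    (hε : ε = b + (t + n * (n * (DD + 1)) + 1) * D + 2 * D) :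
    64 * (LL k (m * D) D c ε B + 1) ^ 2 ≤ R ^ 70 := by
  have hR2 : 2 ≤ R := by omega
  have e1 : ∀ {x : ℕ}, x ≤ R → x ≤ R ^ 1 := fun h => by rwa [pow_one]
  have hn : n ≤ R ^ 1 := e1 (by omega)
  have hm : m ≤ R ^ 1 := e1 (by omega)
  have hk : k ≤ R ^ 1 := e1 (by omega)
  have hb : b ≤ R ^ 1 := e1 (by omega)
  have hD : D ≤ R ^ 1 := e1 (by omega)
  have ht : t ≤ R ^ 1 := e1 (by omega)
  have h2 : 2 ≤ R ^ 1 := e1 hR2
  have h1 : 1 ≤ R ^ 1 := e1 (by omega)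
  have hc' : c ≤ R ^ 1 := e1 (by omega)
  have hT : m * D ≤ R ^ 2 := mulb hm hD
  have hB' : B ≤ R ^ 5 := by
    rw [← hB]
    exact mulb hk (addb hR2 (upb 3 hR2 hD (by norm_num)) (mulb hk hT))
  obtain ⟨T, hTe⟩ : ∃ T, T = m * D := ⟨_, rfl⟩
  rw [← hTe] at hT hDD ⊢
  have hDD' : DD ≤ R ^ 10 := by
    rw [← hDD]
    have h3 : T * T * (2 * D * D) ≤ R ^ 7 := mulb (mulb hT hT) (mulb (mulb h2 hD) hD)
    have h4 : k * B * T ≤ R ^ 8 := mulb (mulb hk hB') hT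
    have h5 : D + k * B * T ≤ R ^ 9 := addb hR2 (upb 8 hR2 hD (by norm_num)) h4
    have h6 : T + T * T * (2 * D * D) ≤ R ^ 8 := addb hR2 (upb 7 hR2 hT (by norm_num)) h3
    exact addb hR2 (upb 9 hR2 h6 (by norm_num)) h5
  have hε' : ε ≤ R ^ 18 := by
    rw [hε]
    have h3 : n * (n * (DD + 1)) ≤ R ^ 13 :=
      mulb hn (mulb hn (addb hR2 hDD' (upb 10 hR2 h1 (by norm_num))))
    have h4 : t + n * (n * (DD + 1)) ≤ R ^ 14 := addb hR2 (upb 13 hR2 ht (by norm_num)) h3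
    have h5 : t + n * (n * (DD + 1)) + 1 ≤ R ^ 15 :=
      addb hR2 h4 (upb 14 hR2 h1 (by norm_num))
    have h6 : (t + n * (n * (DD + 1)) + 1) * D ≤ R ^ 16 := mulb h5 hD
    have h7 : b + (t + n * (n * (DD + 1)) + 1) * D ≤ R ^ 17 :=
      addb hR2 (upb 16 hR2 hb (by norm_num)) h6
    exact addb hR2 h7 (upb 17 hR2 (mulb h2 hD) (by norm_num))
  obtain ⟨L, hL⟩ : ∃ L, L = LL k T D c ε B := ⟨_, rfl⟩
  have hL1 : L ≤ R ^ 31 := by
    rw [hL]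
    unfold LL
    have a1 : B * B ≤ R ^ 10 := mulb hB' hB'
    have a2 : ε * T ≤ R ^ 20 := mulb hε' hT
    have a3 : 2 * D * (2 * D) ≤ R ^ 4 := mulb (mulb h2 hD) (mulb h2 hD)
    have a4 : ε * (2 * D) ≤ R ^ 20 := mulb hε' (mulb h2 hD)
    have a5 : (2 * D * (2 * D) + ε * (2 * D)) * (T * T) ≤ R ^ 25 :=
      mulb (addb hR2 (upb 20 hR2 a3 (by norm_num)) a4) (mulb hT hT)
    have a6 : D + c + B + 1 ≤ R ^ 7 := by
      have b1 : D + c ≤ R ^ 2 := addb hR2 hD hc'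
      have b2 : D + c + B ≤ R ^ 6 := addb hR2 (upb 5 hR2 b1 (by norm_num)) hB'
      exact addb hR2 b2 (upb 6 hR2 h1 (by norm_num))
    have a7 : 2 * B + 1 ≤ R ^ 7 := addb hR2 (mulb h2 hB') (upb 6 hR2 h1 (by norm_num))
    have a8 : k * k * T * (D * (2 * B + 1)) ≤ R ^ 12 := mulb (mulb (mulb hk hk) hT) (mulb hD a7)
    have a9 : (D + c + B + 1) * (k * k * T * (D * (2 * B + 1))) ≤ R ^ 19 := mulb a6 a8
    have a10 : 1 + k * B * T ≤ R ^ 9 :=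
      addb hR2 (upb 8 hR2 h1 (by norm_num)) (mulb (mulb hk hB') hT)
    have a11 : k + ε * (1 + k * B * T) ≤ R ^ 28 :=
      addb hR2 (upb 27 hR2 hk (by norm_num)) (mulb hε' a10)
    have c1 : B * B + ε * T ≤ R ^ 21 := addb hR2 (upb 20 hR2 a1 (by norm_num)) a2
    have c2 : B * B + ε * T + ε * T ≤ R ^ 22 := addb hR2 c1 (upb 21 hR2 a2 (by norm_num))
    have c3 : B * B + ε * T + ε * T + (2 * D * (2 * D) + ε * (2 * D)) * (T * T) ≤ R ^ 26 :=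
      addb hR2 (upb 25 hR2 c2 (by norm_num)) a5
    have c4 : B * B + ε * T + ε * T + (2 * D * (2 * D) + ε * (2 * D)) * (T * T) +
        (D + c + B + 1) * (k * k * T * (D * (2 * B + 1))) ≤ R ^ 27 :=
      addb hR2 c3 (upb 26 hR2 a9 (by norm_num))
    exact upb 31 hR2 (addb hR2 (upb 28 hR2 c4 (by norm_num)) a11) (by norm_num)
  rw [← hL]
  have h64' : 64 ≤ R ^ 6 := by
    calc 64 = 2 ^ 6 := by norm_num
      _ ≤ R ^ 6 := Nat.pow_le_pow_left hR2 _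
  have h10 : (L + 1) ^ 2 ≤ R ^ 64 := by
    have h11 : L + 1 ≤ R ^ 32 := addb hR2 hL1 (Nat.one_le_pow _ _ (by omega))
    calc (L + 1) ^ 2 ≤ (R ^ 32) ^ 2 := Nat.pow_le_pow_left h11 2
      _ = R ^ 64 := by rw [← pow_mul]
  calc 64 * (L + 1) ^ 2 ≤ R ^ 6 * R ^ 64 := Nat.mul_le_mul h64' h10
    _ = R ^ 70 := by rw [← pow_add]

lemma shift_bound (Q D t R : ℕ) (hQ : 2 ≤ Q) (hR : R = Q + (D + t)) :
    R ^ 70 ≤ Q ^ (70 * (D + t + 2)) := by
  have h1 : D + t + 1 ≤ Q ^ (D + t + 1) :=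
    (Nat.lt_two_pow_self (n := D + t + 1)).le.trans (Nat.pow_le_pow_left hQ _)
  have h2 : R ≤ Q ^ (D + t + 2) := by
    calc R = Q + (D + t) := hR
      _ ≤ Q * (D + t + 1) := by nlinarith
      _ ≤ Q * Q ^ (D + t + 1) := Nat.mul_le_mul_left _ h1
      _ = Q ^ (D + t + 2) := by ring
  calc R ^ 70 ≤ (Q ^ (D + t + 2)) ^ 70 := Nat.pow_le_pow_left h2 _
    _ = Q ^ (70 * (D + t + 2)) := by rw [← pow_mul, mul_comm]

end Pool.Agent.Helper26_RS
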