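import Mathlib
import Pool.Agent.Helper78_ACIT.Circuit
import Pool.Agent.Helper26_RS.Bound

set_option autoImplicit false

/-!
# Identity test for sums of few products of powers of polynomials of small degree

The hitting property `Pit k d t` of sums of `k` products of polynomials of degree at most `d` is a
hypothesis here.
-/

namespace Pool.Agent.Helper26_RS

open Polynomial Pool.Agent Pool.Agent.UO Pool.Agent.Helper12_FV Pool.Agent.Helper12_D3
  Pool.Agent.Helper78_ACIT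

/-- The value of the circuit `G` at the point
`x_s = ∑ j < t, (γ_j + δ_j X) ∏ l < n, l ≠ s, (β_j - l)` (`x_s = 0` for `s ≥ n`) in the finite ring
`F_p[X] / (X ^ R)`. -/
noncomputable def testValue (n p R t : ℕ) (β γ δ : Fin t → ZMod p) (G : List Gate) :
    AdjoinRoot (X ^ R : (ZMod p)[X]) :=
  out (fun s => AdjoinRoot.of _ (point n β γ s) +
    AdjoinRoot.of _ (point n β δ s) * AdjoinRoot.root _) G

/-- Substituting a line of the generator into a polynomial over `ℤ`. -/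
noncomputable def onLine (n p t : ℕ) (β γ δ : Fin t → ZMod p) :
    MvPolynomial ℕ ℤ →+* (ZMod p)[X] :=
  MvPolynomial.eval₂Hom (Int.castRingHom (ZMod p)[X])
    (fun s => C (point n β γ s) + C (point n β δ s) * X)

lemma testValue_eq (n p R t : ℕ) (β γ δ : Fin t → ZMod p) (G : List Gate) :
    testValue n p R t β γ δ G = AdjoinRoot.mk _ (onLine n p t β γ δ (poly G)) := by
  have h1 := out_map (AdjoinRoot.mk (X ^ R : (ZMod p)[X]))
    (fun s => C (point n β γ s) + C (point n β δ s) * X) G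
  have h2 : (fun s => AdjoinRoot.mk (X ^ R : (ZMod p)[X])
      (C (point n β γ s) + C (point n β δ s) * X)) =
      fun s => AdjoinRoot.of (X ^ R : (ZMod p)[X]) (point n β γ s) +
        AdjoinRoot.of _ (point n β δ s) * AdjoinRoot.root _ := by
    funext s
    simp only [map_mul, map_add, AdjoinRoot.mk_C, AdjoinRoot.mk_X]
  rw [h2] at h1
  unfold testValue
  rw [← h1, out_eq_eval]
  rfl

lemma onLine_rename (n p t : ℕ) (β γ δ : Fin t → ZMod p) (F : MvPolynomial (Fin n) ℤ) :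
    onLine n p t β γ δ (MvPolynomial.rename Fin.val F) =
      onl (fun s : Fin n => point n β γ (s : ℕ)) (fun s : Fin n => point n β δ (s : ℕ)) F := by
  have h : (onLine n p t β γ δ).comp
      (MvPolynomial.rename (R := ℤ) (Fin.val : Fin n → ℕ)).toRingHom =
      onl (fun s : Fin n => point n β γ (s : ℕ)) (fun s : Fin n => point n β δ (s : ℕ)) := by
    apply MvPolynomial.ringHom_ext
    · intro z
      simp
    · intro s
      rw [onl_X]
      simp [onLine]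
  exact RingHom.congr_fun h F

lemma point_append {R : Type} [CommRing R] {s t : ℕ} (n : ℕ) (w z : Fin s → R)
    (w' z' : Fin t → R) (i : ℕ) :
    point n (Fin.append w w') (Fin.append z z') i = point n w z i + point n w' z' i := by
  unfold point
  split_ifs
  · rw [Fin.sum_univ_add]
    simp only [Fin.append_left, Fin.append_right]
  · rw [add_zero]

lemma point_zero {R : Type} [CommRing R] {t : ℕ} (n : ℕ) (w : Fin t → R) (i : ℕ) :
    point n w 0 i = 0 := by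
  unfold point
  split_ifs
  · simp
  · rfl

/-- A nonzero polynomial is hit. -/
theorem exists_hit_main (k d t1 t2 : ℕ) (pit : Pit k d t2) (ht1 : d ≤ t1) (ht2 : d ≤ t2)
    (ht2' : 2 * d * d ≤ t2) (n m N b : ℕ)
    (f : Fin m → MvPolynomial (Fin n) ℤ) (A : Fin N → MvPolynomial (Fin n) ℤ)
    (e : Fin N → Fin m → ℕ) (hfd : ∀ j, (f j).totalDegree ≤ d) (hAd : ∀ i, (A i).totalDegree ≤ d)
    (hfb : ∀ j, len (f j) ≤ 2 ^ b) (hAb : ∀ i, len (A i) ≤ 2 ^ b) (he : ∀ i j, e i j ≤ 2 ^ b)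
    (hcase : (N ≤ k ∧ ∀ j, ∀ z : ℤ, MvPolynomial.C z ∣ f j → IsUnit z) ∨
      ((∀ j, 1 ≤ (f j).totalDegree) ∧ (∀ j j', j ≠ j' → IsRelPrime (f j) (f j')) ∧
        ∀ i, (cluster e (N * (d + N * (m * d))) i).card ≤ k))
    (hne : ∑ i, A i * ∏ j, f j ^ e i j ≠ 0) :
    ∃ p, p.Prime ∧ p ≤ (n + m + N + b + 2) ^ (70 * (d + (t1 + t2) + 2)) ∧
      ∃ (w1 z1 : Fin t1 → ℕ) (w2 z2 : Fin t2 → ℕ), ∀ R, N * (d + N * (m * d)) + N ≤ R →
      ¬ (X : (ZMod p)[X]) ^ R ∣ onl (fun s => (ipt n w2 z2 s : ZMod p))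
        (fun s => (ipt n w1 z1 s : ZMod p)) (∑ i, A i * ∏ j, f j ^ e i j) := by
  obtain ⟨B, hB⟩ : ∃ B, N * (d + N * (m * d)) = B := ⟨_, rfl⟩
  obtain ⟨c, hc⟩ : ∃ c, c = m + d + b := ⟨_, rfl⟩
  obtain ⟨DD, hDD⟩ : ∃ DD, m * d + m * d * (m * d) * (2 * d * d) + (d + N * B * (m * d)) = DD :=
    ⟨_, rfl⟩
  obtain ⟨ε, hε⟩ : ∃ ε, ε = b + ((t1 + t2) + n * (n * (DD + 1)) + 1) * d + 2 * d := ⟨_, rfl⟩
  have hbound : 64 * (LL N (m * d) d c ε B + 1) ^ 2 ≤
      (n + m + N + b + 2) ^ (70 * (d + (t1 + t2) + 2)) :=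
    (bound_gen n m N b d (t1 + t2) _ B DD c ε rfl hB hc hDD hε).trans
      (shift_bound (n + m + N + b + 2) d (t1 + t2) _ (by omega) (by ring))
  have key : ∃ p, p.Prime ∧ p ≤ 64 * (LL N (m * d) d c ε B + 1) ^ 2 ∧
      ∃ (w1 z1 : Fin t1 → ℕ) (w2 z2 : Fin t2 → ℕ), ∀ R, B + N ≤ R →
      ¬ (X : (ZMod p)[X]) ^ R ∣ onl (fun s => (ipt n w2 z2 s : ZMod p))
        (fun s => (ipt n w1 z1 s : ZMod p)) (∑ i, A i * ∏ j, f j ^ e i j) := by
    rcases hcase with ⟨hNk, hprim⟩ | ⟨hdeg1, hcop, hsize⟩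
    · exact exists_hit_general_gen m N k d (m * d) b c ε B t1 t2 DD f A e hprim hfd hAd hfb hAb he
        le_rfl hc.ge hB ht1 ht2 ht2' hDD hε.ge hNk pit hne
    · rw [hB] at hsize
      obtain ⟨M, hMdef⟩ : ∃ M, M = 2 ^ (t1 + t2 + n * (n * (DD + 1))) := ⟨_, rfl⟩
      have hM0 : 1 ≤ M := by rw [hMdef]; exact Nat.one_le_two_pow
      have hw : 2 * M ≤ 2 ^ (t1 + t2 + n * (n * (DD + 1)) + 1) := by
        rw [hMdef, pow_succ, mul_comm]
      have hlen : ∀ g : MvPolynomial (Fin n) ℤ, len g ≤ 2 ^ b → len g * (2 * M) ^ d ≤ 2 ^ ε := by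
        intro g hg
        calc len g * (2 * M) ^ d
            ≤ 2 ^ b * (2 ^ (t1 + t2 + n * (n * (DD + 1)) + 1)) ^ d :=
              Nat.mul_le_mul hg (Nat.pow_le_pow_left hw _)
          _ = 2 ^ (b + (t1 + t2 + n * (n * (DD + 1)) + 1) * d) := by rw [← pow_mul, ← pow_add]
          _ ≤ 2 ^ ε := Nat.pow_le_pow_right (by norm_num) (by omega)
      refine exists_hit_gen m N d (m * d) c ε B t1 t2 DD f A e hdeg1 hfd ?_ hAd hcop
        (fun i j => (he i j).trans (Nat.pow_le_pow_right (by norm_num) (by omega))) hB ht1 ht2 ht2'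
        hDD ?_ ?_ (fun i0 _ r _ hne' => hit_of_pit pit A f hAd hfd _ r (hsize i0) hne') hne
      · refine (Finset.sum_le_sum fun j _ => hfd j).trans ?_
        simp
      · intro α β hα hβ _ j i
        rw [← hMdef] at hα hβ
        exact (natAbs_coeff_onl_le α β M d hM0 hα hβ (f j) (hfd j) i).trans (hlen _ (hfb j))
      · intro α hα i
        rw [← hMdef] at hα
        exact (natAbs_eval_le α M d hM0 hα (A i) (hAd i)).trans (hlen _ (hAb i))
  obtain ⟨p, hp, hple, h⟩ := key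
  rw [hB]
  exact ⟨p, hp, hple.trans hbound, h⟩

/-- A nonzero polynomial is hit: version with the algebraic rank. -/
theorem exists_hit_main_alg (k d t1 t2 : ℕ) (pit : AlgPit (k + 1) d t2) (ht1 : d ≤ t1) (ht2 : d ≤ t2)
    (ht2' : 2 * d * d ≤ t2) (n m N b : ℕ)
    (f : Fin m → MvPolynomial (Fin n) ℤ) (A : Fin N → MvPolynomial (Fin n) ℤ)
    (e : Fin N → Fin m → ℕ) (hfd : ∀ j, (f j).totalDegree ≤ d) (hAd : ∀ i, (A i).totalDegree ≤ d)
    (hfb : ∀ j, len (f j) ≤ 2 ^ b) (hAb : ∀ i, len (A i) ≤ 2 ^ b) (he : ∀ i j, e i j ≤ 2 ^ b)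
    (hcase : ((∀ j, ∀ z : ℤ, MvPolynomial.C z ∣ f j → IsUnit z) ∧
        ∀ v : Fin (k + 1) → Fin N,
          ¬ AlgebraicIndependent ℤ fun a => A (v a) * ∏ j, f j ^ e (v a) j) ∨
      ((∀ j, 1 ≤ (f j).totalDegree) ∧ (∀ j j', j ≠ j' → IsRelPrime (f j) (f j')) ∧
        ∀ v : Fin (k + 1) → Fin N,
          (∀ a b, (closeGraph e (N * (d + N * (m * d)))).Reachable (v a) (v b)) →
          ¬ AlgebraicIndependent ℤ fun a => A (v a) * ∏ j, f j ^ e (v a) j))
    (hne : ∑ i, A i * ∏ j, f j ^ e i j ≠ 0) :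
    ∃ p, p.Prime ∧ p ≤ (n + m + N + b + 2) ^ (70 * (d + (t1 + t2) + 2)) ∧
      ∃ (w1 z1 : Fin t1 → ℕ) (w2 z2 : Fin t2 → ℕ), ∀ R, N * (d + N * (m * d)) + N ≤ R →
      ¬ (X : (ZMod p)[X]) ^ R ∣ onl (fun s => (ipt n w2 z2 s : ZMod p))
        (fun s => (ipt n w1 z1 s : ZMod p)) (∑ i, A i * ∏ j, f j ^ e i j) := by
  obtain ⟨B, hB⟩ : ∃ B, N * (d + N * (m * d)) = B := ⟨_, rfl⟩
  obtain ⟨c, hc⟩ : ∃ c, c = m + d + b := ⟨_, rfl⟩
  obtain ⟨DD, hDD⟩ : ∃ DD, m * d + m * d * (m * d) * (2 * d * d) + (d + N * B * (m * d)) = DD :=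
    ⟨_, rfl⟩
  obtain ⟨ε, hε⟩ : ∃ ε, ε = b + ((t1 + t2) + n * (n * (DD + 1)) + 1) * d + 2 * d := ⟨_, rfl⟩
  have hbound : 64 * (LL N (m * d) d c ε B + 1) ^ 2 ≤
      (n + m + N + b + 2) ^ (70 * (d + (t1 + t2) + 2)) :=
    (bound_gen n m N b d (t1 + t2) _ B DD c ε rfl hB hc hDD hε).trans
      (shift_bound (n + m + N + b + 2) d (t1 + t2) _ (by omega) (by ring))
  have key : ∃ p, p.Prime ∧ p ≤ 64 * (LL N (m * d) d c ε B + 1) ^ 2 ∧
      ∃ (w1 z1 : Fin t1 → ℕ) (w2 z2 : Fin t2 → ℕ), ∀ R, B + N ≤ R →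
      ¬ (X : (ZMod p)[X]) ^ R ∣ onl (fun s => (ipt n w2 z2 s : ZMod p))
        (fun s => (ipt n w1 z1 s : ZMod p)) (∑ i, A i * ∏ j, f j ^ e i j) := by
    rcases hcase with ⟨hprim, hrank⟩ | ⟨hdeg1, hcop, hsize⟩
    · exact exists_hit_general_alg m N k d (m * d) b c ε B t1 t2 DD f A e hprim hfd hAd hfb hAb he
        le_rfl hc.ge hB ht1 ht2 ht2' hDD hε.ge hrank pit hne
    · rw [hB] at hsize
      have hf0 : ∀ j, f j ≠ 0 := by
        intro j h0
        have := hdeg1 j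
        rw [h0] at this
        simp at this
      obtain ⟨M, hMdef⟩ : ∃ M, M = 2 ^ (t1 + t2 + n * (n * (DD + 1))) := ⟨_, rfl⟩
      have hM0 : 1 ≤ M := by rw [hMdef]; exact Nat.one_le_two_pow
      have hw : 2 * M ≤ 2 ^ (t1 + t2 + n * (n * (DD + 1)) + 1) := by
        rw [hMdef, pow_succ, mul_comm]
      have hlen : ∀ g : MvPolynomial (Fin n) ℤ, len g ≤ 2 ^ b → len g * (2 * M) ^ d ≤ 2 ^ ε := by
        intro g hg
        calc len g * (2 * M) ^ d
            ≤ 2 ^ b * (2 ^ (t1 + t2 + n * (n * (DD + 1)) + 1)) ^ d :=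
              Nat.mul_le_mul hg (Nat.pow_le_pow_left hw _)
          _ = 2 ^ (b + (t1 + t2 + n * (n * (DD + 1)) + 1) * d) := by rw [← pow_mul, ← pow_add]
          _ ≤ 2 ^ ε := Nat.pow_le_pow_right (by norm_num) (by omega)
      refine exists_hit_gen m N d (m * d) c ε B t1 t2 DD f A e hdeg1 hfd ?_ hAd hcop
        (fun i j => (he i j).trans (Nat.pow_le_pow_right (by norm_num) (by omega))) hB ht1 ht2 ht2'
        hDD ?_ ?_ (fun i0 e0 r her hne' => hit_of_algpit pit A f hAd hfd hf0 _ e e0 r her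
          (fun v hv => hsize v fun a b => ?_) hne') hne
      · refine (Finset.sum_le_sum fun j _ => hfd j).trans ?_
        simp
      · intro α β hα hβ _ j i
        rw [← hMdef] at hα hβ
        exact (natAbs_coeff_onl_le α β M d hM0 hα hβ (f j) (hfd j) i).trans (hlen _ (hfb j))
      · intro α hα i
        rw [← hMdef] at hα
        exact (natAbs_eval_le α M d hM0 hα (A i) (hAd i)).trans (hlen _ (hAb i))
      · have h8 : ∀ a, (closeGraph e B).Reachable i0 (v a) := by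
          intro a
          have := hv a
          simpa only [cluster, Finset.mem_filter, Finset.mem_univ, true_and] using this
        exact (h8 a).symm.trans (h8 b)
  obtain ⟨p, hp, hple, h⟩ := key
  rw [hB]
  exact ⟨p, hp, hple.trans hbound, h⟩

theorem main (k d : ℕ) (hpit : ∃ t0, ∀ t, t0 ≤ t → Pit k d t) :
    ∃ t0 : ℕ, ∀ t, t0 ≤ t → ∃ C : ℕ, ∀ (n m N b : ℕ)
    (f : Fin m → MvPolynomial (Fin n) ℤ) (A : Fin N → MvPolynomial (Fin n) ℤ)
    (e : Fin N → Fin m → ℕ), (∀ j, (f j).totalDegree ≤ d) → (∀ i, (A i).totalDegree ≤ d) →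
    (∀ j, len (f j) ≤ 2 ^ b) → (∀ i, len (A i) ≤ 2 ^ b) → (∀ i j, e i j ≤ 2 ^ b) →
    ((N ≤ k ∧ ∀ j, ∀ z : ℤ, MvPolynomial.C z ∣ f j → IsUnit z) ∨
      ((∀ j, 1 ≤ (f j).totalDegree) ∧ (∀ j j', j ≠ j' → IsRelPrime (f j) (f j')) ∧
        ∀ i, (cluster e (N * (d + N * (m * d))) i).card ≤ k)) →
    ∀ G : List Gate, WellFormed G →
    (poly G = 0 ∨ (∑ i, A i * ∏ j, f j ^ e i j ≠ 0 ∧
        poly G ∣ MvPolynomial.rename Fin.val (∑ i, A i * ∏ j, f j ^ e i j))) →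
    (G ∈ ACIT ↔ ∀ p, p.Prime → p ≤ (n + m + N + b + 2) ^ C →
      ∀ β γ δ : Fin t → ZMod p,
        testValue n p (N * (d + N * (m * d)) + N) t β γ δ G = 0) := by
  obtain ⟨s0, hs0⟩ := hpit
  refine ⟨d + (s0 + d + 2 * d * d), fun t ht => ?_⟩
  obtain ⟨t2, ht2⟩ : ∃ t2, d + t2 = t := ⟨t - d, by omega⟩
  refine ⟨70 * (d + (d + t2) + 2), ?_⟩
  intro n m N b f A e hfd hAd hfb hAb he hcase G hG hpoly
  constructor
  · rintro ⟨-, h0⟩ p _ _ β γ δ
    rw [testValue_eq, h0, map_zero, map_zero]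
  · intro htest
    refine ⟨hG, ?_⟩
    rcases hpoly with h0 | ⟨hF, hdvd⟩
    · exact h0
    exfalso
    obtain ⟨p, hp, hple, w1, z1, w2, z2, hhit⟩ := exists_hit_main k d d t2
      (hs0 t2 (by omega)) le_rfl (by omega) (by omega) n m N b f A e hfd hAd hfb hAb he hcase hF
    subst ht2
    have h1 := htest p hp hple
      (Fin.append (fun j => ((w1 j : ℕ) : ZMod p)) (fun j => ((w2 j : ℕ) : ZMod p)))
      (Fin.append 0 (fun j => ((z2 j : ℕ) : ZMod p)))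
      (Fin.append (fun j => ((z1 j : ℕ) : ZMod p)) 0)
    rw [testValue_eq, AdjoinRoot.mk_eq_zero] at h1
    apply hhit _ le_rfl
    have hcast : ∀ {s : ℕ} (w z : Fin s → ℕ) (i : Fin n), ((ipt n w z i : ℤ) : ZMod p) =
        point n (fun j => ((w j : ℕ) : ZMod p)) (fun j => ((z j : ℕ) : ZMod p)) (i : ℕ) := by
      intro s w z i
      unfold ipt
      rw [← eq_intCast (Int.castRingHom (ZMod p)), point_map]
      simp
    have h2 := onLine_rename n p (d + t2)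
      (Fin.append (fun j => ((w1 j : ℕ) : ZMod p)) (fun j => ((w2 j : ℕ) : ZMod p)))
      (Fin.append 0 (fun j => ((z2 j : ℕ) : ZMod p)))
      (Fin.append (fun j => ((z1 j : ℕ) : ZMod p)) 0) (∑ i, A i * ∏ j, f j ^ e i j)
    simp only [point_append, point_zero, zero_add, add_zero] at h2
    simp only [hcast]
    rw [← h2]
    exact h1.trans (map_dvd (onLine n p (d + t2) _ _ _) hdvd)


theorem main_alg (k d : ℕ) (hpit : ∃ t0, ∀ t, t0 ≤ t → AlgPit (k + 1) d t) :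
    ∃ t0 : ℕ, ∀ t, t0 ≤ t → ∃ C : ℕ, ∀ (n m N b : ℕ)
    (f : Fin m → MvPolynomial (Fin n) ℤ) (A : Fin N → MvPolynomial (Fin n) ℤ)
    (e : Fin N → Fin m → ℕ), (∀ j, (f j).totalDegree ≤ d) → (∀ i, (A i).totalDegree ≤ d) →
    (∀ j, len (f j) ≤ 2 ^ b) → (∀ i, len (A i) ≤ 2 ^ b) → (∀ i j, e i j ≤ 2 ^ b) →
    (((∀ j, ∀ z : ℤ, MvPolynomial.C z ∣ f j → IsUnit z) ∧
        ∀ v : Fin (k + 1) → Fin N,
          ¬ AlgebraicIndependent ℤ fun a => A (v a) * ∏ j, f j ^ e (v a) j) ∨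
      ((∀ j, 1 ≤ (f j).totalDegree) ∧ (∀ j j', j ≠ j' → IsRelPrime (f j) (f j')) ∧
        ∀ v : Fin (k + 1) → Fin N,
          (∀ a b, (closeGraph e (N * (d + N * (m * d)))).Reachable (v a) (v b)) →
          ¬ AlgebraicIndependent ℤ fun a => A (v a) * ∏ j, f j ^ e (v a) j)) →
    ∀ G : List Gate, WellFormed G →
    (poly G = 0 ∨ (∑ i, A i * ∏ j, f j ^ e i j ≠ 0 ∧
        poly G ∣ MvPolynomial.rename Fin.val (∑ i, A i * ∏ j, f j ^ e i j))) →
    (G ∈ ACIT ↔ ∀ p, p.Prime → p ≤ (n + m + N + b + 2) ^ C →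
      ∀ β γ δ : Fin t → ZMod p,
        testValue n p (N * (d + N * (m * d)) + N) t β γ δ G = 0) := by
  obtain ⟨s0, hs0⟩ := hpit
  refine ⟨d + (s0 + d + 2 * d * d), fun t ht => ?_⟩
  obtain ⟨t2, ht2⟩ : ∃ t2, d + t2 = t := ⟨t - d, by omega⟩
  refine ⟨70 * (d + (d + t2) + 2), ?_⟩
  intro n m N b f A e hfd hAd hfb hAb he hcase G hG hpoly
  constructor
  · rintro ⟨-, h0⟩ p _ _ β γ δ
    rw [testValue_eq, h0, map_zero, map_zero]
  · intro htest
    refine ⟨hG, ?_⟩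
    rcases hpoly with h0 | ⟨hF, hdvd⟩
    · exact h0
    exfalso
    obtain ⟨p, hp, hple, w1, z1, w2, z2, hhit⟩ := exists_hit_main_alg k d d t2
      (hs0 t2 (by omega)) le_rfl (by omega) (by omega) n m N b f A e hfd hAd hfb hAb he hcase hF
    subst ht2
    have h1 := htest p hp hple
      (Fin.append (fun j => ((w1 j : ℕ) : ZMod p)) (fun j => ((w2 j : ℕ) : ZMod p)))
      (Fin.append 0 (fun j => ((z2 j : ℕ) : ZMod p)))
      (Fin.append (fun j => ((z1 j : ℕ) : ZMod p)) 0)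
    rw [testValue_eq, AdjoinRoot.mk_eq_zero] at h1
    apply hhit _ le_rfl
    have hcast : ∀ {s : ℕ} (w z : Fin s → ℕ) (i : Fin n), ((ipt n w z i : ℤ) : ZMod p) =
        point n (fun j => ((w j : ℕ) : ZMod p)) (fun j => ((z j : ℕ) : ZMod p)) (i : ℕ) := by
      intro s w z i
      unfold ipt
      rw [← eq_intCast (Int.castRingHom (ZMod p)), point_map]
      simp
    have h2 := onLine_rename n p (d + t2)
      (Fin.append (fun j => ((w1 j : ℕ) : ZMod p)) (fun j => ((w2 j : ℕ) : ZMod p)))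
      (Fin.append 0 (fun j => ((z2 j : ℕ) : ZMod p)))
      (Fin.append (fun j => ((z1 j : ℕ) : ZMod p)) 0) (∑ i, A i * ∏ j, f j ^ e i j)
    simp only [point_append, point_zero, zero_add, add_zero] at h2
    simp only [hcast]
    rw [← h2]
    exact h1.trans (map_dvd (onLine n p (d + t2) _ _ _) hdvd)

end Pool.Agent.Helper26_RS
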