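import Mathlib
import Pool.Agent.RS.StmtsG
import Pool.Agent.Helper26_RS.Main

set_option autoImplicit false

/-!
# The hitting property from the hitting theorem of squad RS
-/

namespace Pool.Agent.Helper26_RS

open MvPolynomial Pool.Agent Pool.Agent.UO Pool.Agent.RS

theorem algpit_of_hit (h : HitStmt) (k d : ℕ) : ∃ t0, ∀ t, t0 ≤ t → AlgPit k d t := by
  classical
  obtain ⟨t0, ht0⟩ := h ℚ k d
  refine ⟨t0, fun t ht n M s hs hv C hC => ?_⟩
  obtain ⟨φ, hφ⟩ : ∃ φ : MvPolynomial (Fin n) ℚ →ₐ[ℚ] MvPolynomial ℕ ℚ, φ = rename Fin.val :=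
    ⟨_, rfl⟩
  have hφinj : Function.Injective φ := by
    rw [hφ]
    exact rename_injective _ Fin.val_injective
  have hF : rename Fin.val (aeval (fun i => (s i).prod) C) =
      aeval (fun i => φ (s i).prod) C := by
    rw [← hφ]
    exact MvPolynomial.comp_aeval_apply (fun i => (s i).prod) φ C
  apply ht0 n t ht
  · refine ⟨M, fun i => φ (s i).prod, C, ?_, ?_, hF⟩
    · intro i
      refine ⟨(s i).length, fun v => φ ((s i).get v), fun v => ⟨?_, ?_⟩, ?_⟩
      · rw [hφ]
        exact (totalDegree_rename_le _ _).trans (hs i _ (List.get_mem _ _))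
      · rw [hφ]
        intro x hx
        have hx' := MvPolynomial.vars_rename _ _ hx
        rw [Finset.mem_image] at hx'
        obtain ⟨a, -, rfl⟩ := hx'
        exact Finset.mem_range.2 a.2
      · change φ (s i).prod = _
        rw [← map_prod]
        congr 1
        rw [← List.prod_ofFn]
        congr 1
        exact (List.ofFn_get (s i)).symm
    · intro s' hs'
      by_contra hcon
      push Not at hcon
      obtain ⟨en⟩ : Nonempty (Fin s'.card ≃ s') := ⟨s'.equivFin.symm⟩
      apply hv fun a => (en (Fin.castLE hcon a) : Fin M)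
      have h1 : AlgebraicIndependent ℚ fun a : Fin (k + 1) =>
          φ (s (en (Fin.castLE hcon a) : Fin M)).prod := by
        have h2 := AlgebraicIndependent.comp hs' (fun a : Fin (k + 1) => en (Fin.castLE hcon a))
          (fun a b hab => Fin.castLE_injective hcon (en.injective hab))
        exact h2
      exact AlgebraicIndependent.of_comp φ h1
  · rw [← hφ]
    intro h0
    apply hC
    apply hφinj
    rw [h0, map_zero]

end Pool.Agent.Helper26_RS
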